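import Pool.Agent.Q55.Hs.Pair
import Pool.Agent.Y163.GeoA

/-!
# Commuting families of idempotents which reverse the signs
-/

open CategoryTheory AlgebraicGeometry Finset

universe u v

namespace Pool.Agent.Q55.Hs

open Pool.Agent.H914 Pool.Agent.H914.VarClass Pool.Agent.H914.VarClass.Obj
  Pool.Agent.H914.WeilCohomology Pool.Agent.H281R3.HT Pool.Agent.W552 Pool.Agent.W539.Ker

variable {k : Type u} [Field k] {𝒱 : VarClass k} {ops : CycleOps 𝒱}
  {W : WeilCohomology.{u, v} ops} {X Y P : 𝒱.Obj} {D : Y.Cycles} {E : P.Cycles}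
  {f : Module.End W.K (W.H Y)} {g : Module.End W.K (W.H P)}

/-- The product of the operators `1 - e k`, `k < m`. -/
noncomputable def pr (e : ℕ → Module.End W.K (W.H Y)) : ℕ → Module.End W.K (W.H Y)
  | 0 => 1
  | m + 1 => pr e m * (1 - e m)

lemma pr_comm {T : Module.End W.K (W.H Y)} {e : ℕ → Module.End W.K (W.H Y)} :
    ∀ m : ℕ, (∀ l < m, Commute T (e l)) → Commute T (pr e m)
  | 0, _ => Commute.one_right T
  | m + 1, h => (pr_comm m fun l hl => h l (by omega)).mul_right
      ((Commute.one_right T).sub_right (h m (by omega)))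

lemma SA.one : SA W Y D f 1 := fun _ _ => rfl

lemma SA.sub {a b : Module.End W.K (W.H Y)} (ha : SA W Y D f a) (hb : SA W Y D f b) :
    SA W Y D f (a - b) := by
  intro x y
  rw [LinearMap.sub_apply, LinearMap.sub_apply, map_sub, LinearMap.sub_apply, map_sub, ha, hb]

lemma SA.mul {a b : Module.End W.K (W.H Y)} (ha : SA W Y D f a) (hb : SA W Y D f b)
    (hab : Commute a b) : SA W Y D f (a * b) := by
  intro x y
  rw [Module.End.mul_apply, ha, hb, ← Module.End.mul_apply, hab.symm.eq]

lemma SA.ext (F : Fr W Y D f) (G : Fr W P E g) {a : Module.End W.K (W.H Y)}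
    {b : Module.End W.K (W.H P)} (ha : SA W Y D f a) (hb : SA W P E g b) :
    SA W (Y.prod P) (ops.pull (fst Y P) D + ops.pull (snd Y P) E) (extSum W f g)
      (extOp W a b) := by
  intro c d
  refine W.kunneth_induction (p := fun c => bf W (Y.prod P)
    (ops.pull (fst Y P) D + ops.pull (snd Y P) E) (extSum W f g) (extOp W a b c) d =
      bf W (Y.prod P) (ops.pull (fst Y P) D + ops.pull (snd Y P) E) (extSum W f g) c
        (extOp W a b d)) ?_ ?_ c
  · intro x y hx hy
    rw [map_add, map_add, LinearMap.add_apply, hx, hy, map_add, LinearMap.add_apply]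
  intro i j x _ y _
  refine W.kunneth_induction (p := fun d => bf W (Y.prod P)
    (ops.pull (fst Y P) D + ops.pull (snd Y P) E) (extSum W f g)
      (extOp W a b (W.map (fst Y P) x * W.map (snd Y P) y)) d =
      bf W (Y.prod P) (ops.pull (fst Y P) D + ops.pull (snd Y P) E) (extSum W f g)
        (W.map (fst Y P) x * W.map (snd Y P) y) (extOp W a b d)) ?_ ?_ d
  · intro x' y' hx hy
    rw [map_add, hx, hy, map_add, map_add]
  intro i' j' x' _ y' _
  rw [extOp_tmul, extOp_tmul]
  have e1 := F.bf_ext G (a x) x' (b y) y'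
  have e2 := F.bf_ext G x (a x') y (b y')
  rw [H281R3.HT.ext, H281R3.HT.ext] at e1 e2
  rw [e1, e2, ha, hb]

lemma one_sub_aop {e : Module.End W.K (W.H Y)} (he : AOp W Y Y e) : AOp W Y Y (1 - e) := by
  have := AOp.one.add (he.smul (-1))
  have h2 : (1 : Module.End W.K (W.H Y)) + (((-1 : ℚ)) : W.K) • e = 1 - e := by
    rw [Rat.cast_neg, Rat.cast_one]
    module
  rwa [h2] at this

/-- Commuting idempotents with operators which reverse the signs. -/
structure RF (W : WeilCohomology.{u, v} ops) (Y : 𝒱.Obj) (D : Y.Cycles)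
    (f : Module.End W.K (W.H Y)) (m : ℕ) (e J : ℕ → Module.End W.K (W.H Y)) (c : ℕ → ℚ)
    (N : ℕ) : Prop where
  ea : ∀ k < m, AOp W Y Y (e k)
  es : ∀ k < m, SA W Y D f (e k)
  ee : ∀ k < m, e k * e k = e k
  ja : ∀ k < m, AOp W Y Y (J k)
  js : ∀ k < m, SA W Y D f (J k)
  hc : ∀ k < m, 0 < c k
  jj : ∀ k < m, J k * J k = ((-c k : ℚ) : W.K) • e k
  cc : ∀ k < m, ∀ l < m, k ≠ l → Commute (e k) (e l)
  cj : ∀ k < m, ∀ l < m, k ≠ l → Commute (J k) (e l)
  de : ∀ k < m, Dg W Y (e k)
  dj : ∀ k < m, Dg W Y (J k)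
  rank : Module.finrank W.K (LinearMap.range (pr e m)) ≤ N

namespace RF

variable {m N : ℕ} {e J : ℕ → Module.End W.K (W.H Y)} {c : ℕ → ℚ}

lemma pr_aop (h : RF W Y D f m e J c N) : ∀ j ≤ m, AOp W Y Y (pr e j)
  | 0, _ => AOp.one
  | j + 1, hj => (h.pr_aop j (by omega)).mul (one_sub_aop (h.ea j (by omega)))

lemma pr_sa (h : RF W Y D f m e J c N) : ∀ j ≤ m, SA W Y D f (pr e j)
  | 0, _ => SA.one
  | j + 1, hj => (h.pr_sa j (by omega)).mul (SA.one.sub (h.es j (by omega)))
      ((Commute.one_right _).sub_right (pr_comm j fun l hl =>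
        h.cc j (by omega) l (by omega) (by omega)).symm)

lemma sg_eq (F : Fr W Y D f) (S : Sy W Y D f) (h : RF W Y D f m e J c N)
    {u : Module.End W.K (W.H Y)} (hu : AOp W Y Y u) (hus : SA W Y D f u)
    (hue : ∀ k < m, Commute u (e k)) (huj : ∀ k < m, Commute u (J k)) :
    ∀ j, ∀ hj : j ≤ m, sg' F hu = sg' F (hu.mul (h.pr_aop j hj))
  | 0, _ => rfl
  | j + 1, hj => by
    have hcu : ∀ l ≤ m, Commute u (pr e l) := fun l hl => pr_comm l fun i hi => hue i (by omega)
    have hcc : ∀ l ≤ j, Commute (e j) (pr e l) := fun l hl =>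
      pr_comm l fun i hi => h.cc j (by omega) i (by omega) (by omega)
    have hcj : ∀ l ≤ j, Commute (J j) (pr e l) := fun l hl =>
      pr_comm l fun i hi => h.cj j (by omega) i (by omega) (by omega)
    rw [h.sg_eq F S hu hus hue huj j (by omega)]
    have e1 : u * pr e (j + 1) = u * pr e j * (1 - e j) := (mul_assoc _ _ _).symm
    have hA : AOp W Y Y (u * pr e j * (1 - e j)) := by
      rw [← e1]; exact hu.mul (h.pr_aop (j + 1) hj)
    have key := sg_remove F S (hu.mul (h.pr_aop j (by omega)))
      (hus.mul (h.pr_sa j (by omega)) (hcu j (by omega))) (h.ea j (by omega))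
      (h.es j (by omega)) (h.ee j (by omega))
      ((hue j (by omega)).mul_left (hcc j le_rfl).symm).eq
      (h.ja j (by omega)) (h.js j (by omega))
      ((huj j (by omega)).symm.mul_right (hcj j le_rfl)).eq
      (h.hc j (by omega)) (h.jj j (by omega)) hA
    rw [key]
    congr 1

/-- The signature is bounded by the rank of the complement. -/
theorem bound (F : Fr W Y D f) (S : Sy W Y D f) (h : RF W Y D f m e J c N)
    {u : Module.End W.K (W.H Y)} (hu : AOp W Y Y u) (hus : SA W Y D f u)
    (hue : ∀ k < m, Commute u (e k)) (huj : ∀ k < m, Commute u (J k)) :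
    |sg' F hu| ≤ N := by
  rw [h.sg_eq F S hu hus hue huj m le_rfl]
  have hcu : Commute u (pr e m) := pr_comm m fun i hi => hue i (by omega)
  refine (abs_sg_le F S (hu.mul (h.pr_aop m le_rfl)) (hus.mul (h.pr_sa m le_rfl) hcu)).trans ?_
  have h1 : LinearMap.range (u * pr e m) ≤ LinearMap.range (pr e m) := by
    rw [hcu.eq]
    rintro _ ⟨x, rfl⟩
    exact ⟨u x, rfl⟩
  exact_mod_cast (Submodule.finrank_mono h1).trans h.rank

end RF

lemma RF.base (Y : 𝒱.Obj) (D : Y.Cycles) (f : Module.End W.K (W.H Y)) :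
    RF W Y D f 0 (fun _ => 0) (fun _ => 0) (fun _ => 0) (Module.finrank W.K (W.H Y)) where
  ea k hk := absurd hk (by omega)
  es k hk := absurd hk (by omega)
  ee k hk := absurd hk (by omega)
  ja k hk := absurd hk (by omega)
  js k hk := absurd hk (by omega)
  hc k hk := absurd hk (by omega)
  jj k hk := absurd hk (by omega)
  cc k hk := absurd hk (by omega)
  cj k hk := absurd hk (by omega)
  de k hk := absurd hk (by omega)
  dj k hk := absurd hk (by omega)
  rank := Submodule.finrank_le _

lemma ext_comm {a : Module.End W.K (W.H Y)} {b : Module.End W.K (W.H P)} :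
    Commute (extOp W a (1 : Module.End W.K (W.H P))) (extOp W (1 : Module.End W.K (W.H Y)) b) := by
  change _ * _ = _ * _
  rw [extOp_mul, extOp_mul, mul_one, one_mul, mul_one, one_mul]

lemma ext_comm_left {a a' : Module.End W.K (W.H Y)} (h : Commute a a') :
    Commute (extOp W a (1 : Module.End W.K (W.H P))) (extOp W a' (1 : Module.End W.K (W.H P))) := by
  change _ * _ = _ * _
  rw [extOp_mul, extOp_mul, h.eq]

lemma extOp_sub_left (a a' : Module.End W.K (W.H Y)) (b : Module.End W.K (W.H P)) :
    extOp W (a - a') b = extOp W a b - extOp W a' b := by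
  rw [eq_sub_iff_add_eq, ← extOp_add_left, sub_add_cancel]

lemma extOp_sub_right (a : Module.End W.K (W.H Y)) (b b' : Module.End W.K (W.H P)) :
    extOp W a (b - b') = extOp W a b - extOp W a b' := by
  rw [eq_sub_iff_add_eq, ← extOp_add_right, sub_add_cancel]

/-- The projections of a product. -/
lemma proj_prod (n : ℕ) : proj (W.isInternal (Y.prod P)) n = ∑ i ∈ range (n + 1),
    extOp W (proj (W.isInternal Y) i) (proj (W.isInternal P) (n - i)) := by
  apply LinearMap.ext
  intro x
  refine W.kunneth_induction (p := fun x => proj (W.isInternal (Y.prod P)) n x =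
    (∑ i ∈ range (n + 1), extOp W (proj (W.isInternal Y) i)
      (proj (W.isInternal P) (n - i))) x) ?_ ?_ x
  · intro a b ha hb
    rw [map_add, ha, hb, map_add]
  intro i j a ha b hb
  rw [LinearMap.sum_apply]
  have hm : W.map (fst Y P) a * W.map (snd Y P) b ∈ W.gr (Y.prod P) (i + j) :=
    W.mul_mem (W.map_mem _ ha) (W.map_mem _ hb)
  have h0 : ∀ l ∈ range (n + 1), l ≠ i → extOp W (proj (W.isInternal Y) l)
      (proj (W.isInternal P) (n - l)) (W.map (fst Y P) a * W.map (snd Y P) b) = 0 := by
    intro l _ hl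
    rw [extOp_tmul, proj_ne _ ha (Ne.symm hl), map_zero, zero_mul]
  by_cases hij : i + j = n
  · rw [Finset.sum_eq_single i h0]
    · subst hij
      rw [proj_same _ hm, extOp_tmul, proj_same _ ha, Nat.add_sub_cancel_left, proj_same _ hb]
    · intro h1
      exact absurd (Finset.mem_range.2 (by omega)) h1
  · rw [proj_ne _ hm hij]
    symm
    apply Finset.sum_eq_zero
    intro l hl
    rw [Finset.mem_range] at hl
    by_cases hli : l = i
    · subst hli
      rw [extOp_tmul, proj_ne _ hb (by omega), map_zero, mul_zero]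
    · exact h0 l (Finset.mem_range.2 hl) hli

lemma Dg.ext {a : Module.End W.K (W.H Y)} {b : Module.End W.K (W.H P)} (ha : Dg W Y a)
    (hb : Dg W P b) : Dg W (Y.prod P) (extOp W a b) := by
  intro n
  rw [proj_prod]
  apply Commute.sum_left
  intro i _
  change _ * _ = _ * _
  rw [extOp_mul, extOp_mul, (ha i).eq, (hb _).eq]

lemma Dg.one : Dg W Y 1 := fun _ => Commute.one_right _

/-- The Kunneth projectors are algebraic. -/
def PrA (W : WeilCohomology.{u, v} ops) (Y : 𝒱.Obj) : Prop :=
  ∀ i, AOp W Y Y (proj (W.isInternal Y) i)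

lemma PrA.prod (h : PrA W Y) (h' : PrA W P) : PrA W (Y.prod P) := by
  intro n
  rw [proj_prod]
  exact AOp.ratSub.sum _ fun i _ => (h i).ext (h' _)

lemma SA.proj (F : Fr W Y D f) (i : ℕ) : SA W Y D f (proj (W.isInternal Y) i) :=
  fun x y => bf_proj F i x y

/-- The families on products. -/
theorem RF.step (F : Fr W Y D f) (G : Fr W P E g) {m N : ℕ}
    {e J : ℕ → Module.End W.K (W.H Y)} {c : ℕ → ℚ} (h : RF W Y D f m e J c N)
    {e₀ J₀ : Module.End W.K (W.H P)} {c₀ : ℚ} (R : Rev W P E g e₀ J₀ c₀) :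
    RF W (Y.prod P) (ops.pull (fst Y P) D + ops.pull (snd Y P) E) (extSum W f g) (m + 1)
      (fun k => if k < m then extOp W (e k) 1 else extOp W 1 e₀)
      (fun k => if k < m then extOp W (J k) 1 else extOp W 1 J₀)
      (fun k => if k < m then c k else c₀) (N * (Module.finrank W.K (W.H P) - 2)) := by
  have hpr : ∀ j ≤ m, pr (fun k => if k < m then extOp W (e k) (1 : Module.End W.K (W.H P))
      else extOp W 1 e₀) j = extOp W (pr e j) 1 := by
    intro j
    induction j with
    | zero => intro _; exact extOp_one.symm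
    | succ j ih =>
      intro hj
      rw [pr, pr, ih (by omega), if_pos (by omega), ← extOp_one (W := W) (Y := Y) (Z := P),
        ← extOp_sub_left, extOp_mul, mul_one]
  refine ⟨?_, ?_, ?_, ?_, ?_, ?_, ?_, ?_, ?_, ?_, ?_, ?_⟩
  · intro k hk
    by_cases hkm : k < m
    · simp only [if_pos hkm]; exact (h.ea k hkm).ext AOp.one
    · simp only [if_neg hkm]; exact AOp.one.ext R.ea
  · intro k hk
    by_cases hkm : k < m
    · simp only [if_pos hkm]; exact (h.es k hkm).ext F G SA.one
    · simp only [if_neg hkm]; exact SA.one.ext F G R.es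
  · intro k hk
    by_cases hkm : k < m
    · simp only [if_pos hkm]; rw [extOp_mul, h.ee k hkm, mul_one]
    · simp only [if_neg hkm]; rw [extOp_mul, R.ee, mul_one]
  · intro k hk
    by_cases hkm : k < m
    · simp only [if_pos hkm]; exact (h.ja k hkm).ext AOp.one
    · simp only [if_neg hkm]; exact AOp.one.ext R.ja
  · intro k hk
    by_cases hkm : k < m
    · simp only [if_pos hkm]; exact (h.js k hkm).ext F G SA.one
    · simp only [if_neg hkm]; exact SA.one.ext F G R.js
  · intro k hk
    by_cases hkm : k < m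
    · simp only [if_pos hkm]; exact h.hc k hkm
    · simp only [if_neg hkm]; exact R.hc
  · intro k hk
    by_cases hkm : k < m
    · simp only [if_pos hkm]; rw [extOp_mul, h.jj k hkm, mul_one, extOp_smul_left]
    · simp only [if_neg hkm]; rw [extOp_mul, R.jj, mul_one, extOp_smul_right]
  · intro k hk l hl hkl
    by_cases hkm : k < m
    · by_cases hlm : l < m
      · simp only [if_pos hkm, if_pos hlm]; exact ext_comm_left (h.cc k hkm l hlm hkl)
      · simp only [if_pos hkm, if_neg hlm]; exact ext_comm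
    · by_cases hlm : l < m
      · simp only [if_neg hkm, if_pos hlm]; exact ext_comm.symm
      · omega
  · intro k hk l hl hkl
    by_cases hkm : k < m
    · by_cases hlm : l < m
      · simp only [if_pos hkm, if_pos hlm]; exact ext_comm_left (h.cj k hkm l hlm hkl)
      · simp only [if_pos hkm, if_neg hlm]; exact ext_comm
    · by_cases hlm : l < m
      · simp only [if_neg hkm, if_pos hlm]; exact ext_comm.symm
      · omega
  · intro k hk
    by_cases hkm : k < m
    · simp only [if_pos hkm]; exact (h.de k hkm).ext Dg.one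
    · simp only [if_neg hkm]; exact Dg.one.ext R.de
  · intro k hk
    by_cases hkm : k < m
    · simp only [if_pos hkm]; exact (h.dj k hkm).ext Dg.one
    · simp only [if_neg hkm]; exact Dg.one.ext R.dj
  · rw [pr, hpr m le_rfl, if_neg (lt_irrefl m)]
    have h1 : extOp W (pr e m) (1 : Module.End W.K (W.H P)) * (1 - extOp W 1 e₀) =
        extOp W (pr e m) (1 - e₀) := by
      rw [← extOp_one (W := W) (Y := Y) (Z := P), ← extOp_sub_right, extOp_mul, mul_one, one_mul]
    rw [h1, Pool.Agent.Y163.finrank_range_extOp]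
    have h2 := R.rank
    exact Nat.mul_le_mul h.rank (by omega)

end Pool.Agent.Q55.Hs
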