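import Pool.Agent.Q55.Hs.Bad
import Pool.Agent.W539.Ker.Ops
import Pool.Agent.Y133.Half.DLaw

/-!
# The rank of the form is the rank of the cycles modulo numerical equivalence
-/

open CategoryTheory AlgebraicGeometry Finset

universe u v

namespace Pool.Agent.Q55.Hs

open Module
open Pool.Agent.H914 Pool.Agent.H914.VarClass Pool.Agent.H914.VarClass.Obj
  Pool.Agent.H914.WeilCohomology Pool.Agent.H281R3.HT Pool.Agent.W552 Pool.Agent.W539.Ker
open Pool.Agent.Y133.Half (algSys cycRank numDim_eq_cycRank pw algDim)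

variable {k : Type u} [Field k] {𝒱 : VarClass k} {ops : CycleOps 𝒱}
  {W : WeilCohomology.{u, v} ops} {X Y : 𝒱.Obj} {D : X.Cycles} {f : Module.End W.K (W.H X)}
  {E : Y.Cycles} {g : Module.End W.K (W.H Y)}

/-- A polarized variety with hard Lefschetz and an algebraic lowering operator. -/
structure Pz (W : WeilCohomology.{u, v} ops) (X : 𝒱.Obj) (D : X.Cycles)
    (f : Module.End W.K (W.H X)) : Prop where
  fr : Fr W X D f
  sy : Sy W X D f
  ls : LefStr (W.isInternal X) X.dim (LinearMap.mulLeft W.K (W.cl X D)) f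

lemma exists_pz (hD : X.IsCyc 1 D) (hHL : HardLefschetz W X D) (hB : LefschetzB W X D) :
    ∃ f, Pz W X D f := by
  obtain ⟨f, G⟩ := exists_gd hD hHL hB
  exact ⟨f, G.fr, G.sy, G.ls⟩

lemma Pz.st_st (G : Pz W X D f) (x : W.H X) : st W X D f (st W X D f x) = x := by
  have := congrArg (fun F => F x) G.ls.star_star
  exact this

lemma AS.mem_algSpan {x : W.H X} (hx : AS W X x) : x ∈ algSpan W X := by
  refine AS.ind (p := fun x => x ∈ algSpan W X) ?_ ?_ hx
  · intro j x hx
    exact Submodule.subset_span (Set.mem_iUnion.2 ⟨j, hx⟩)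
  · intro a b ha hb; exact Submodule.add_mem _ ha hb

lemma algSpan_ind {p : W.H X → Prop} (h0 : p 0) (hadd : ∀ a b, p a → p b → p (a + b))
    (hsmul : ∀ (r : W.K) a, p a → p (r • a)) (hA : ∀ x, AS W X x → p x) {x : W.H X}
    (hx : x ∈ algSpan W X) : p x := by
  induction hx using Submodule.span_induction with
  | mem x hx =>
    obtain ⟨j, hj⟩ := Set.mem_iUnion.1 hx
    exact hA x (AS.of hj)
  | zero => exact h0
  | add x y _ _ hx hy => exact hadd x y hx hy
  | smul a x _ hx => exact hsmul a x hx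

/-- The number of members of a maximal orthogonal family. -/
theorem card_eq_cycRank (G : Pz W X D f) {ι : Type} [Fintype ι] {x : ι → AG W X}
    (hx : OM (BF G.fr) x) : Fintype.card ι = cycRank ops X := by
  classical
  rw [← numDim_eq_cycRank W X]
  set S := algSys W with hS
  have hC : ∀ {y : W.H X}, AS W X y → y ∈ S.C X := fun hy => AS.mem_algSpan hy
  let v : ι → (S.C X →ₗ[W.K] W.K) := fun i => S.F X 1 ⟨x i, hC (x i).2⟩
  have hv : ∀ i (d : S.C X), v i d = W.tr X ((x i : W.H X) * (d : W.H X)) := fun i d => rfl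
  have hst : ∀ i, st W X D f (x i : W.H X) ∈ S.C X := fun i => hC (G.fr.st_AS (x i).2)
  have hdiag : ∀ i j, v i ⟨_, hst j⟩ = ((BF G.fr (x i) (x j) : ℚ) : W.K) := by
    intro i j
    rw [hv, BF_cast, bf_apply]
  have hli : LinearIndependent W.K v := by
    rw [Fintype.linearIndependent_iff]
    intro c hc i
    have h1 := congrArg (fun F => F ⟨_, hst i⟩) hc
    simp only [LinearMap.sum_apply, LinearMap.smul_apply, LinearMap.zero_apply, hdiag,
      smul_eq_mul] at h1
    rw [Finset.sum_eq_single i] at h1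
    · rcases mul_eq_zero.1 h1 with h | h
      · exact h
      · exact absurd (by exact_mod_cast h) (hx.ne i)
    · intro j _ hj
      rw [hx.orth j i hj, Rat.cast_zero, mul_zero]
    · intro h0; exact absurd (Finset.mem_univ _) h0
  have hspan : LinearMap.range (S.F X 1) = Submodule.span W.K (Set.range v) := by
    apply le_antisymm
    · rintro _ ⟨⟨c, hc⟩, rfl⟩
      obtain ⟨hc', h⟩ := algSpan_ind (p := fun c => ∃ hc : c ∈ S.C X, S.F X 1 ⟨c, hc⟩ ∈
        Submodule.span W.K (Set.range v)) (x := c)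
        ⟨Submodule.zero_mem _, by
          have : (⟨0, Submodule.zero_mem _⟩ : S.C X) = 0 := rfl
          rw [this, map_zero]; exact Submodule.zero_mem _⟩
        (by
          rintro a b ⟨ha, ha'⟩ ⟨hb, hb'⟩
          refine ⟨Submodule.add_mem _ ha hb, ?_⟩
          have : (⟨a + b, Submodule.add_mem _ ha hb⟩ : S.C X) = ⟨a, ha⟩ + ⟨b, hb⟩ := rfl
          rw [this, map_add]; exact Submodule.add_mem _ ha' hb')
        (by
          rintro r a ⟨ha, ha'⟩
          refine ⟨Submodule.smul_mem _ _ ha, ?_⟩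
          have : (⟨r • a, Submodule.smul_mem _ _ ha⟩ : S.C X) = r • ⟨a, ha⟩ := rfl
          rw [this, map_smul]; exact Submodule.smul_mem _ _ ha')
        (by
          intro a ha
          refine ⟨hC ha, ?_⟩
          have h1 : S.F X 1 ⟨a, hC ha⟩ = ∑ i, ((BF G.fr ⟨a, ha⟩ (x i) / BF G.fr (x i) (x i) : ℚ) :
              W.K) • v i := by
            apply LinearMap.ext
            rintro ⟨d, hd⟩
            rw [LinearMap.sum_apply]
            simp only [LinearMap.smul_apply, hv, smul_eq_mul]
            change W.tr X (a * d) = _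
            have hw : ((res (BF G.fr) x ⟨a, ha⟩ : AG W X) : W.H X) = a - ∑ i,
                ((BF G.fr ⟨a, ha⟩ (x i) / BF G.fr (x i) (x i) : ℚ) : W.K) • (x i : W.H X) := by
              rw [res, AddSubgroup.coe_sub, AddSubgroup.val_finsetSum]
              rfl
            have h0 : W.tr X (((res (BF G.fr) x ⟨a, ha⟩ : AG W X) : W.H X) * d) = 0 := by
              refine algSpan_ind (p := fun d => W.tr X (((res (BF G.fr) x ⟨a, ha⟩ : AG W X) :
                W.H X) * d) = 0) ?_ ?_ ?_ ?_ hd
              · rw [mul_zero, map_zero]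
              · intro b b' hb hb'
                rw [mul_add, map_add, hb, hb', add_zero]
              · intro r b hb
                rw [mul_smul_comm, map_smul, hb, smul_zero]
              · intro b hb
                have h2 := om_rad (BF_symm G.fr G.sy) hx (res_orth hx ⟨a, ha⟩)
                  ⟨_, G.fr.st_AS hb⟩
                have h3 : ((BF G.fr (res (BF G.fr) x ⟨a, ha⟩) ⟨_, G.fr.st_AS hb⟩ : ℚ) : W.K) =
                    0 := by rw [h2, Rat.cast_zero]
                rw [BF_cast, bf_apply, G.st_st] at h3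
                exact h3
            rw [hw, sub_mul, map_sub, sub_eq_zero, Finset.sum_mul, map_sum] at h0
            rw [h0]
            apply Finset.sum_congr rfl
            intro i _
            rw [smul_mul_assoc, map_smul, smul_eq_mul]
          rw [h1]
          exact Submodule.sum_mem _ fun i _ => Submodule.smul_mem _ _
            (Submodule.subset_span ⟨i, rfl⟩))
        hc
      exact h
    · rw [Submodule.span_le]
      rintro _ ⟨i, rfl⟩
      exact ⟨_, rfl⟩
  change _ = Module.finrank W.K (LinearMap.range (S.F X 1))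
  rw [hspan, finrank_span_eq_card hli]

/-- **The total signature is bounded by the rank.** -/
theorem abs_totalSig_le (G : Pz W X D f) : |totalSig W X D| ≤ (cycRank ops X : ℤ) := by
  obtain ⟨ι, _, x, hx, -⟩ := exists_om G.fr
  rw [← card_eq_cycRank G hx, ← sgn_eq_totalSig G.fr G.sy]
  exact abs_sgn_le_card (BF_symm G.fr G.sy) hx

/-- If all primitive cycles have nonnegative squares, the total signature is the rank. -/
theorem totalSig_eq (G : Pz W X D f) (h : Semi W X D) : totalSig W X D = cycRank ops X := by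
  obtain ⟨ι, _, x, hx, -⟩ := exists_om G.fr
  rw [← card_eq_cycRank G hx, ← sgn_eq_totalSig G.fr G.sy]
  exact sgn_nonneg (BF_symm G.fr G.sy) hx (h.nonneg G.fr)

lemma rad_of_nonneg {M : Type*} [AddCommGroup M] [Module ℚ M] {B : M →ₗ[ℚ] M →ₗ[ℚ] ℚ}
    (hB : ∀ x y, B x y = B y x) (h : ∀ u, 0 ≤ B u u) {w : M} (hw : B w w = 0) (y : M) :
    B w y = 0 := by
  by_contra hb
  have h1 := h (y + (-(B y y + 1) / (2 * B w y)) • w)
  simp only [map_add, map_smul, LinearMap.add_apply, LinearMap.smul_apply, smul_eq_mul, hw,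
    mul_zero, add_zero, hB y w] at h1
  have h2 : -(B y y + 1) / (2 * B w y) * B w y = -(B y y + 1) / 2 := by
    field_simp
  rw [h2] at h1
  linarith

/-- If all primitive cycles have nonnegative squares, the conjecture D implies the conjecture of
Hodge type. -/
theorem hodgeType_of (G : Pz W X D f) (h : Semi W X D) (hD : HomEqNum W X) :
    HodgeType W X D := by
  intro j hj z hz hprim hne
  have hP : Primitive W X D j z := ⟨hz, hprim⟩
  have h0 : 0 ≤ pairing ops X D j z z := h j hj z hP
  refine lt_of_le_of_ne h0 fun heq => hne ?_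
  have h1 := bf_same G.fr hj hP hP (j := 0) (by omega)
  have h2 : pairing ops X D j z z = 0 := heq.symm
  rw [pow_zero, Module.End.one_apply, h2, mul_zero, Rat.cast_zero] at h1
  have hzA : AS W X (W.cl X z) := AS.of ⟨z, hz, rfl⟩
  have h3 : BF G.fr ⟨_, hzA⟩ ⟨_, hzA⟩ = 0 := by
    have : ((BF G.fr ⟨_, hzA⟩ ⟨_, hzA⟩ : ℚ) : W.K) = ((0 : ℚ) : W.K) := by
      rw [BF_cast, Rat.cast_zero]; exact h1
    exact_mod_cast this
  refine hD j (by omega) z hz fun w hw => ?_
  have hwA : AS W X (W.cl X w) := AS.of ⟨w, hw, rfl⟩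
  have h4 := rad_of_nonneg (BF_symm G.fr G.sy) (h.nonneg G.fr) h3 ⟨_, G.fr.st_AS hwA⟩
  have h5 : ((BF G.fr ⟨_, hzA⟩ ⟨_, G.fr.st_AS hwA⟩ : ℚ) : W.K) = 0 := by rw [h4, Rat.cast_zero]
  rw [BF_cast, bf_apply, G.st_st, Pool.Agent.H447.tr_mul_cl hz hw (by omega)] at h5
  exact_mod_cast h5

section Prod

lemma fr_hardLefschetz (F : Fr W X D f) : HardLefschetz W X D := by
  have hinj : ∀ i ≤ X.dim, ∀ a ∈ W.gr X i,
      (LinearMap.mulLeft W.K (W.cl X D) ^ (X.dim - i)) a = 0 → a = 0 := by
    intro i hi a ha h0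
    by_contra ha0
    refine Sl2.e_pow_inj F.sl2 (x := a) (M := X.dim - i) ?_ ha0 le_rfl h0
    rw [Fr.wt_gr ha]
    congr 1
    rw [Nat.cast_sub hi]
    ring
  have hle : ∀ i, Module.finrank W.K (W.gr X i) ≤ Module.finrank W.K (W.gr X (2 * X.dim - i)) := by
    intro i
    rw [← Subspace.dual_finrank_eq (K := W.K) (V := W.gr X (2 * X.dim - i))]
    refine LinearMap.finrank_le_finrank_of_injective
      (f := ((bil W X).domRestrict₁₂ (W.gr X i) (W.gr X (2 * X.dim - i)))) ?_
    rw [← LinearMap.ker_eq_bot, LinearMap.ker_eq_bot']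
    rintro ⟨a, ha⟩ h0
    apply Subtype.ext
    apply W.nondeg
    intro b
    refine gr_induction (W.isInternal X) (p := fun b => W.tr X (a * b) = 0) ?_ ?_ b
    · intro l b hb
      by_cases hl : i + l = 2 * X.dim
      · have h2 : b ∈ W.gr X (2 * X.dim - i) := by rwa [show 2 * X.dim - i = l by omega]
        have := congrArg (fun g => g ⟨b, h2⟩) h0
        exact this
      · exact W.tr_eq_zero (W.mul_mem ha hb) hl
    · intro b b' hb hb'
      rw [mul_add, map_add, hb, hb', add_zero]
  intro i hi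
  refine ⟨hinj i hi, ?_⟩
  have hmem : ∀ v ∈ W.gr X i, ((LinearMap.mulLeft W.K (W.cl X D)) ^ (X.dim - i)) v ∈
      W.gr X (2 * X.dim - i) := by
    intro v hv
    have := pow_L_mem (mulLeft_isHom (W := W) F.hD) hv (X.dim - i)
    rwa [show i + 2 * (X.dim - i) = 2 * X.dim - i by omega] at this
  have hginj : Function.Injective
      (((LinearMap.mulLeft W.K (W.cl X D)) ^ (X.dim - i)).restrict hmem) := by
    rw [← LinearMap.ker_eq_bot, LinearMap.ker_eq_bot']
    rintro ⟨v, hv⟩ h0
    apply Subtype.ext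
    exact hinj i hi v hv (congrArg Subtype.val h0)
  have heq : Module.finrank W.K (W.gr X i) = Module.finrank W.K (W.gr X (2 * X.dim - i)) := by
    refine le_antisymm (hle i) ?_
    have := hle (2 * X.dim - i)
    rwa [show 2 * X.dim - (2 * X.dim - i) = i by omega] at this
  intro b hb
  obtain ⟨⟨a, ha⟩, hab⟩ :=
    ((LinearMap.injective_iff_surjective_of_finrank_eq_finrank heq).1 hginj) ⟨b, hb⟩
  exact ⟨a, ha, congrArg Subtype.val hab⟩

lemma fr_ls (F : Fr W X D f) : LefStr (W.isInternal X) X.dim (LinearMap.mulLeft W.K (W.cl X D)) f :=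
  ⟨mulLeft_isHom F.hD, W_hbd, fr_hardLefschetz F, F.sl2⟩

lemma Pz.prod (G : Pz W X D f) (G' : Pz W Y E g) :
    Pz W (X.prod Y) (ops.pull (fst X Y) D + ops.pull (snd X Y) E) (extSum W f g) :=
  ⟨G.fr.prod G'.fr, G.sy.prod G.fr G'.fr G'.sy, fr_ls (G.fr.prod G'.fr)⟩

end Prod

end Pool.Agent.Q55.Hs
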