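import Pool.Agent.Q55.Hs.Tot

/-!
# Primitive cycles with negative squares, and the positivity of the form
-/

open CategoryTheory AlgebraicGeometry Finset

universe u v

namespace Pool.Agent.Q55.Hs

open Pool.Agent.H914 Pool.Agent.H914.VarClass Pool.Agent.H914.VarClass.Obj
  Pool.Agent.H914.WeilCohomology Pool.Agent.H281R3.HT Pool.Agent.W552 Pool.Agent.W539.Ker

variable {k : Type u} [Field k] {𝒱 : VarClass k} {ops : CycleOps 𝒱}
  {W : WeilCohomology.{u, v} ops} {X Y : 𝒱.Obj} {D : X.Cycles} {f : Module.End W.K (W.H X)}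
  {E : Y.Cycles} {g : Module.End W.K (W.H Y)}

/-- The square of the unit is a positive rational number. -/
def PosOne (W : WeilCohomology.{u, v} ops) (X : 𝒱.Obj) (D : X.Cycles)
    (f : Module.End W.K (W.H X)) : Prop :=
  ∃ p : ℚ, 0 < p ∧ bf W X D f 1 1 = (p : W.K)

lemma posOne (F : Fr W X D f) (hdeg : 0 < X.V.degCycle (divPow ops D X.dim X.V.fundCycle)) :
    PosOne W X D f := by
  have hprim : Primitive W X D 0 X.V.fundCycle := by
    refine ⟨X.V.fundCycle_mem, ?_⟩
    have h1 := W.cl_mem (divPow_mem (ops := ops) F.hD (X.dim - 2 * 0 + 1) X.V.fundCycle_mem)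
    rw [W.gr_eq_bot X _ (by omega)] at h1
    exact (Submodule.mem_bot _).1 h1
  have h1 := bf_same F (n := 0) (by omega) hprim hprim (j := 0) (by omega)
  rw [pow_zero, Module.End.one_apply, W.cl_fund] at h1
  refine ⟨_, ?_, h1⟩
  have h2 : pairing ops X D 0 X.V.fundCycle X.V.fundCycle =
      X.V.degCycle (divPow ops D X.dim X.V.fundCycle) := by
    have hm := divPow_mem (ops := ops) F.hD X.dim X.V.fundCycle_mem
    have h3 : ((pairing ops X D 0 X.V.fundCycle X.V.fundCycle : ℚ) : W.K) =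
        ((X.V.degCycle (divPow ops D X.dim X.V.fundCycle) : ℚ) : W.K) := by
      rw [pairing_cast F.hD (by omega) X.V.fundCycle_mem X.V.fundCycle_mem, W.cl_fund, one_mul,
        pow_zero, one_mul, ← W.tr_cl (by simpa using hm), cl_divPow, W.cl_fund]
      rfl
    exact_mod_cast h3
  rw [h2]
  positivity

lemma PosOne.prod (F : Fr W X D f) (G : Fr W Y E g) (h : PosOne W X D f) (h' : PosOne W Y E g) :
    PosOne W (X.prod Y) (ops.pull (fst X Y) D + ops.pull (snd X Y) E) (extSum W f g) := by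
  obtain ⟨p, hp, hp'⟩ := h
  obtain ⟨q, hq, hq'⟩ := h'
  refine ⟨p * q, mul_pos hp hq, ?_⟩
  have h1 := F.bf_ext G 1 1 1 1
  have h2 : H281R3.HT.ext W (1 : W.H X) (1 : W.H Y) = 1 := by
    rw [H281R3.HT.ext, map_one, map_one, mul_one]
  rw [h2] at h1
  rw [h1, hp', hq', Rat.cast_mul]

lemma fund_prim (hD : X.IsCyc 1 D) : Primitive W X D 0 X.V.fundCycle := by
  refine ⟨X.V.fundCycle_mem, ?_⟩
  have h1 := W.cl_mem (divPow_mem (ops := ops) hD (X.dim - 2 * 0 + 1) X.V.fundCycle_mem)
  rw [W.gr_eq_bot X _ (by omega)] at h1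
  exact (Submodule.mem_bot _).1 h1

lemma cross_one (F : Fr W X D f) {n : ℕ} (h0 : n ≠ 0) (hn : 2 * n ≤ X.dim)
    {z : X.Cycles} (hz : Primitive W X D n z) :
    bf W X D f (((LinearMap.mulLeft W.K (W.cl X D)) ^ n) 1) (W.cl X z) = 0 := by
  have h1 := bf_cross F (n := 0) (n' := n) (by omega) hn (Ne.symm h0) (fund_prim (W := W) F.hD) hz
    (j := n) (j' := 0) (by omega) (by omega)
  rwa [pow_zero, Module.End.one_apply, W.cl_fund] at h1

/-- A primitive cycle with negative square gives a pair with squares of opposite signs. -/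
theorem exists_hp (F : Fr W X D f) (h1 : PosOne W X D f) {n : ℕ} (hn : 2 * n ≤ X.dim)
    {z : X.Cycles} (hz : Primitive W X D n z) (hneg : pairing ops X D n z z < 0) :
    ∃ x y p q, HP W X D f x y p q ∧ x ∈ W.gr X (2 * n) ∧ y ∈ W.gr X (2 * n) := by
  obtain ⟨p, hp, hp'⟩ := h1
  have hzz := bf_same F hn hz hz (j := 0) (by omega)
  rw [pow_zero, Module.End.one_apply] at hzz
  set c : ℚ := (Nat.factorial 0 : ℚ) * ((X.dim - 2 * n - 0).factorial : ℚ)⁻¹ with hc
  have hc0 : 0 < c := by positivity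
  have hzA : AS W X (W.cl X z) := AS.of ⟨z, hz.1, rfl⟩
  by_cases h0 : n = 0
  · exfalso
    subst h0
    have h2 := W.cl_mem hz.1
    rw [mul_zero, W.gr_zero, Submodule.mem_span_singleton] at h2
    obtain ⟨r, hr⟩ := h2
    obtain ⟨s, hs⟩ := F.bf_rat AS.one hzA
    have hp0 : (p : W.K) ≠ 0 := by exact_mod_cast hp.ne'
    rw [← hr, map_smul, smul_eq_mul, hp'] at hs
    have hr' : r = ((s / p : ℚ) : W.K) := by
      rw [Rat.cast_div, eq_div_iff hp0, hs]
    rw [← hr, map_smul, map_smul, LinearMap.smul_apply, hp', smul_eq_mul, smul_eq_mul, hr'] at hzz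
    have h3 : s / p * (s / p * p) = c * pairing ops X D 0 z z := by exact_mod_cast hzz
    have h4 : 0 ≤ s / p * (s / p * p) := by
      rw [← mul_assoc]
      exact mul_nonneg (mul_self_nonneg _) hp.le
    have h5 : c * pairing ops X D 0 z z < 0 := mul_neg_of_pos_of_neg hc0 hneg
    linarith
  · have hf := fund_prim (W := W) F.hD
    have e0 := bf_same F (n := 0) (by omega) hf hf (j := 0) (by omega)
    have en := bf_same F (n := 0) (by omega) hf hf (j := n) (by omega)
    rw [pow_zero, Module.End.one_apply, W.cl_fund, hp'] at e0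
    rw [W.cl_fund] at en
    have e1 : p = (Nat.factorial 0 : ℚ) * ((X.dim - 2 * 0 - 0).factorial : ℚ)⁻¹ *
        pairing ops X D 0 X.V.fundCycle X.V.fundCycle := by exact_mod_cast e0
    have e2 : 0 < pairing ops X D 0 X.V.fundCycle X.V.fundCycle := by
      have e3 : (0 : ℚ) < (Nat.factorial 0 : ℚ) * ((X.dim - 2 * 0 - 0).factorial : ℚ)⁻¹ := by
        positivity
      rw [e1] at hp
      exact (mul_pos_iff_of_pos_left e3).1 hp
    have hx := cross_one F h0 hn hz
    have hmem : ((LinearMap.mulLeft W.K (W.cl X D)) ^ n) (1 : W.H X) ∈ algClasses W X n := by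
      have := (ap_alg F).map_L_pow n (l := 0) (c := 1) alg_one
      rwa [zero_add] at this
    refine ⟨((LinearMap.mulLeft W.K (W.cl X D)) ^ n) 1, W.cl X z, _,
      -(c * pairing ops X D n z z), ⟨AS.of hmem, hzA, ?_, ?_, en, ?_, hx⟩, alg_gr hmem,
      W.cl_mem hz.1⟩
    · positivity
    · have h5 : c * pairing ops X D n z z < 0 := mul_neg_of_pos_of_neg hc0 hneg
      linarith
    · rw [hzz, Rat.cast_neg, neg_neg]

/-- All primitive cycles have nonnegative squares. -/
def Semi (W : WeilCohomology.{u, v} ops) (X : 𝒱.Obj) (D : X.Cycles) : Prop :=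
  ∀ n, 2 * n ≤ X.dim → ∀ z, Primitive W X D n z → 0 ≤ pairing ops X D n z z

/-- If all primitive cycles have nonnegative squares, the form is nonnegative. -/
theorem Semi.nonneg (F : Fr W X D f) (h : Semi W X D) (w : AG W X) : 0 ≤ BF F w w := by
  set L := LinearMap.mulLeft W.K (W.cl X D) with hL
  have key : ∀ l, ∀ x ∈ algClasses W X l, ∃ q : ℚ, 0 ≤ q ∧ bf W X D f x x = (q : W.K) := by
    intro l x hx
    obtain ⟨v, hv, hs⟩ := (ap_alg F).decomp (mulLeft_isHom F.hD) W_hbd hx
    rw [← hL] at hv hs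
    have hcomp : ∀ b ∈ range (l + 1), (L ^ b) (v b) = 0 ∨ ∃ z, Primitive W X D (l - b) z ∧
        2 * (l - b) ≤ X.dim ∧ b ≤ X.dim - 2 * (l - b) ∧ v b = W.cl X z := by
      intro b hb
      rw [Finset.mem_range] at hb
      obtain ⟨h1, h2, h3⟩ := hv b (by omega)
      by_cases h0 : (L ^ b) (v b) = 0
      · exact Or.inl h0
      right
      have hv0 : v b ≠ 0 := by rintro h; apply h0; rw [h, map_zero]
      have h4 := h2 hv0
      have h5 : b ≤ X.dim - 2 * (l - b) := by
        by_contra h6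
        exact h0 (L_pow_gt (n := X.dim) (i := 2 * (l - b)) h3 (by omega))
      obtain ⟨z, hz, hz'⟩ := h1
      exact ⟨z, ⟨hz, by rw [cl_divPow, hz']; exact h3⟩, h4, h5, hz'.symm⟩
    have hcross : ∀ b ∈ range (l + 1), ∀ b' ∈ range (l + 1), b ≠ b' →
        bf W X D f ((L ^ b) (v b)) ((L ^ b') (v b')) = 0 := by
      intro b hb b' hb' hne
      rcases hcomp b hb with h0 | ⟨z, hz, hz1, hz2, hvz⟩
      · rw [h0, map_zero, LinearMap.zero_apply]
      rcases hcomp b' hb' with h0 | ⟨z', hz', hz1', hz2', hvz'⟩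
      · rw [h0, map_zero]
      rw [hvz, hvz']
      rw [Finset.mem_range] at hb hb'
      exact bf_cross F hz1 hz1' (by omega) hz hz' (by omega) hz2'
    have hdiag : ∀ b ∈ range (l + 1), ∃ q : ℚ, 0 ≤ q ∧
        bf W X D f ((L ^ b) (v b)) ((L ^ b) (v b)) = (q : W.K) := by
      intro b hb
      rcases hcomp b hb with h0 | ⟨z, hz, hz1, hz2, hvz⟩
      · exact ⟨0, le_rfl, by rw [h0, map_zero, Rat.cast_zero]⟩
      refine ⟨_, ?_, by rw [hvz]; exact bf_same F hz1 hz hz hz2⟩
      exact mul_nonneg (by positivity) (h _ hz1 z hz)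
    choose! q hq0 hq using hdiag
    refine ⟨∑ b ∈ range (l + 1), q b, Finset.sum_nonneg hq0, ?_⟩
    conv_lhs => rw [hs]
    rw [map_sum (bf W X D f), LinearMap.sum_apply, Rat.cast_sum]
    apply Finset.sum_congr rfl
    intro b hb
    rw [map_sum, Finset.sum_eq_single b, hq b hb]
    · intro b' hb' hne
      exact hcross b hb b' hb' hne.symm
    · intro h0; exact absurd hb h0
  choose! q hq0 hq using fun l => key l (proj (W.isInternal X) (2 * l) (w : W.H X)) (AS.proj w.2 l)
  have hsum : (w : W.H X) = ∑ j ∈ range (X.dim + 1), proj (W.isInternal X) (2 * j) (w : W.H X) :=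
    Fr.AS_sum w.2
  have h1 : ((BF F w w : ℚ) : W.K) = ((∑ j ∈ range (X.dim + 1), q j : ℚ) : W.K) := by
    rw [BF_cast]
    conv_lhs => rw [hsum]
    rw [map_sum (bf W X D f), LinearMap.sum_apply, Rat.cast_sum]
    apply Finset.sum_congr rfl
    intro j hj
    rw [map_sum, Finset.sum_eq_single j, hq j]
    · intro l _ hl
      exact F.bf_deg (proj_mem _ _ _) (proj_mem _ _ _) (by omega)
    · intro h0; exact absurd hj h0
  have h2 : BF F w w = ∑ j ∈ range (X.dim + 1), q j := by exact_mod_cast h1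
  rw [h2]
  exact Finset.sum_nonneg fun j _ => hq0 j

end Pool.Agent.Q55.Hs
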