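import Pool.Agent.Q55.Hs.IsoP

/-!
# The signatures of the powers decay if a power has a primitive cycle with negative square
-/

open CategoryTheory AlgebraicGeometry Finset

universe u v

namespace Pool.Agent.Q55.Hs

open Module
open Pool.Agent.H914 Pool.Agent.H914.VarClass Pool.Agent.H914.VarClass.Obj
  Pool.Agent.H914.WeilCohomology Pool.Agent.H281R3.HT Pool.Agent.W552 Pool.Agent.W539.Ker
open Pool.Agent.Y133.Half (algSys cycRank numDim_eq_cycRank pw algDim finrank_pw finrank_prod)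

variable {k : Type u} [Field k] {𝒱 : VarClass k} {ops : CycleOps 𝒱}
  {W : WeilCohomology.{u, v} ops} {X Z P : 𝒱.Obj} {D : X.Cycles} {B : Z.Cycles} {E : P.Cycles}

/-- `Z × P × ⋯ × P`, with `j` factors `P`. -/
noncomputable def blk (ops : CycleOps 𝒱) (Z : 𝒱.Obj) (B : Z.Cycles) (P : 𝒱.Obj) (E : P.Cycles) :
    ℕ → Σ Y : 𝒱.Obj, Y.Cycles
  | 0 => ⟨Z, B⟩
  | j + 1 => ⟨(blk ops Z B P E j).1.prod P, ops.pull (fst (blk ops Z B P E j).1 P)
      (blk ops Z B P E j).2 + ops.pull (snd (blk ops Z B P E j).1 P) E⟩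

/-- **The block bound.** -/
theorem blk_bound {f : Module.End W.K (W.H Z)} {g : Module.End W.K (W.H P)} (F : Pz W Z B f)
    (G : Pz W P E g) (hZ : PrA W Z) (hP : PrA W P) (h1 : PosOne W P E g) {n : ℕ}
    (hn : 2 * n ≤ P.dim) {z : P.Cycles}
    (hz : Primitive W P E n z) (hneg : pairing ops P E n z z < 0) (j : ℕ) :
    absSig W (blk ops Z B P E j).1 (blk ops Z B P E j).2 ≤
      (((blk ops Z B P E j).1.dim : ℤ) + 2) *
        (finrank W.K (W.H Z) * (finrank W.K (W.H P) - 2) ^ j : ℕ) := by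
  obtain ⟨x, y, p, q, hp, hx, hy⟩ := exists_hp G.fr h1 hn hz hneg
  obtain ⟨e₀, J₀, c₀, R⟩ := hp.rev G.fr G.sy hx hy
  have key : ∀ j, ∃ f', Pz W (blk ops Z B P E j).1 (blk ops Z B P E j).2 f' ∧
      PrA W (blk ops Z B P E j).1 ∧
      ∃ m e J c, RF W (blk ops Z B P E j).1 (blk ops Z B P E j).2 f' m e J c
        (finrank W.K (W.H Z) * (finrank W.K (W.H P) - 2) ^ j) := by
    intro j
    induction j with
    | zero =>
      have h0 := RF.base (W := W) Z B f
      rw [← mul_one (finrank W.K (W.H Z)), ← pow_zero (finrank W.K (W.H P) - 2)] at h0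
      exact ⟨f, F, hZ, 0, _, _, _, h0⟩
    | succ j ih =>
      obtain ⟨f', F', hY, m, e, J, c, h⟩ := ih
      have h0 := h.step F'.fr G.fr R
      rw [mul_assoc, ← pow_succ] at h0
      exact ⟨_, F'.prod G, hY.prod hP, m + 1, _, _, _, h0⟩
  obtain ⟨f', F', hY, m, e, J, c, h⟩ := key j
  rw [absSig]
  refine sum_abs_le fun i _ => ?_
  rw [← sg_proj F'.fr F'.sy (hY (2 * i))]
  exact h.bound F'.fr F'.sy (hY (2 * i)) (SA.proj F'.fr _) (fun k hk => h.de k hk _)
    (fun k hk => h.dj k hk _)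

lemma pi_blk (X : 𝒱.Obj) (D : X.Cycles) (i m : ℕ) : ∀ j,
    PI W (blk ops (pw X i) (pwDiv ops D i) (pw X m) (pwDiv ops D m) j).1
      (blk ops (pw X i) (pwDiv ops D i) (pw X m) (pwDiv ops D m) j).2
      (pw X (i + j * (m + 1))) (pwDiv ops D (i + j * (m + 1)))
  | 0 => by
    rw [zero_mul, add_zero]
    exact PI.refl
  | j + 1 => by
    have h := (PI.left (Z := pw X m) (B := pwDiv ops D m) (pi_blk X D i m j)).trans
      (pi_pw X D (i + j * (m + 1)) m)
    rw [show i + (j + 1) * (m + 1) = i + j * (m + 1) + m + 1 by ring]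
    exact h

lemma pwDiv_cyc (hD : X.IsCyc 1 D) : ∀ n, (pw X n).IsCyc 1 (pwDiv ops D n)
  | 0 => hD
  | n + 1 => SmVar.IsCyc.add (ops.pull_mem _ (pwDiv_cyc hD n)) (ops.pull_mem _ hD)

lemma exists_pz_pw {f : Module.End W.K (W.H X)} (G : Pz W X D f) (h1 : PosOne W X D f) :
    ∀ n, ∃ g, Pz W (pw X n) (pwDiv ops D n) g ∧ PosOne W (pw X n) (pwDiv ops D n) g
  | 0 => ⟨f, G, h1⟩
  | n + 1 => by
    obtain ⟨g, G', h1'⟩ := exists_pz_pw G h1 n
    exact ⟨_, G'.prod G, h1'.prod G'.fr G.fr h1⟩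

lemma pra_pw (h : PrA W X) : ∀ n, PrA W (pw X n)
  | 0 => h
  | n + 1 => (pra_pw h n).prod h

lemma dim_pw (X : 𝒱.Obj) : ∀ n, (pw X n).dim = (n + 1) * X.dim
  | 0 => by rw [zero_add, one_mul]; rfl
  | n + 1 => by
    change (pw X n).dim + X.dim = _
    rw [dim_pw X n]
    ring

/-- **The signatures of the powers, if a power has a primitive cycle with negative square.** -/
theorem pw_bound {f : Module.End W.K (W.H X)} (G : Pz W X D f) (hX : PrA W X)
    (h1 : PosOne W X D f) {m n : ℕ}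
    (hn : 2 * n ≤ (pw X m).dim) {z : (pw X m).Cycles}
    (hz : Primitive W (pw X m) (pwDiv ops D m) n z)
    (hneg : pairing ops (pw X m) (pwDiv ops D m) n z z < 0) (i j : ℕ) :
    absSig W (pw X (i + j * (m + 1))) (pwDiv ops D (i + j * (m + 1))) ≤
      (((pw X (i + j * (m + 1))).dim : ℤ) + 2) *
        (finrank W.K (W.H X) ^ (i + 1) * (finrank W.K (W.H X) ^ (m + 1) - 2) ^ j : ℕ) := by
  obtain ⟨g, G', h1'⟩ := exists_pz_pw G h1 m
  obtain ⟨g', G'', -⟩ := exists_pz_pw G h1 i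
  have h := blk_bound (W := W) G'' G' (pra_pw hX i) (pra_pw hX m) h1' hn hz hneg j
  have hc : ∀ j, (blk ops (pw X i) (pwDiv ops D i) (pw X m) (pwDiv ops D m) j).1.IsCyc 1
      (blk ops (pw X i) (pwDiv ops D i) (pw X m) (pwDiv ops D m) j).2 := by
    intro j
    induction j with
    | zero => exact pwDiv_cyc G.fr.hD i
    | succ j ih =>
      exact SmVar.IsCyc.add (ops.pull_mem _ ih) (ops.pull_mem _ (pwDiv_cyc G.fr.hD m))
  rw [absSig_iso (hc j) (pwDiv_cyc G.fr.hD _) (pi_blk X D i m j), (pi_blk (W := W) X D i m j).1,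
    finrank_pw, finrank_pw] at h
  exact h

end Pool.Agent.Q55.Hs
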