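import Pool.Agent.W539.Ker.Defs
import Pool.Agent.Q55.ZeroOneDefs

/-!
# Sums of signatures: definitions
-/

open CategoryTheory AlgebraicGeometry Finset

universe u v

namespace Pool.Agent.Q55.Hs

open Pool.Agent.H914 Pool.Agent.H914.VarClass Pool.Agent.H914.VarClass.Obj
  Pool.Agent.H281R3.HT Pool.Agent.W539.Ker

variable {k : Type u} [Field k] {𝒱 : VarClass k} {ops : CycleOps 𝒱}

/-- The signature of the Hodge-Riemann form on the sums of algebraic classes of all degrees: the
sum over `n ≤ d / 2`, `d = dim X`, of `d - 2 n + 1` times the signature of the pairing on the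
primitive cycles of codimension `n`. -/
noncomputable def totalSig (W : WeilCohomology.{u, v} ops) (X : 𝒱.Obj) (D : X.Cycles) : ℤ :=
  ∑ n ∈ range (X.dim / 2 + 1), ((X.dim : ℤ) - 2 * n + 1) * sig W X D n

/-- The sum over `n ≤ d / 2`, `d = dim X`, of the absolute value of the signature of the pairing on
the primitive cycles of codimension `n`. -/
noncomputable def absSig (W : WeilCohomology.{u, v} ops) (X : 𝒱.Obj) (D : X.Cycles) : ℤ :=
  ∑ n ∈ range (X.dim / 2 + 1), |sig W X D n|

end Pool.Agent.Q55.Hs
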