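import Pool.Agent.W539.Ker.Inertia

/-!
# Signatures of rational symmetric forms of finite rank
-/

open Finset

namespace Pool.Agent.Q55.Hs

open Pool.Agent.W539.Ker

variable {M : Type*} [AddCommGroup M] [Module ℚ M]

/-- The orthogonal families of anisotropic vectors have at most `N` members. -/
def Bd (B : M →ₗ[ℚ] M →ₗ[ℚ] ℚ) (N : ℕ) : Prop :=
  ∀ m (x : Fin m → M), (∀ i, B (x i) (x i) ≠ 0) → (∀ i j, i ≠ j → B (x i) (x j) = 0) → m ≤ N

/-- The signature. -/
noncomputable def sgn (B : M →ₗ[ℚ] M →ₗ[ℚ] ℚ) : ℤ :=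
  (posIdx (fun x y => B x y) : ℤ) - posIdx (fun x y => -B x y)

variable {B : M →ₗ[ℚ] M →ₗ[ℚ] ℚ} {N : ℕ}

lemma abs_sgn_le (hB : ∀ x y, B x y = B y x) (h : Bd B N) : |sgn B| ≤ N := by
  obtain ⟨m, x, hx⟩ := exists_OM hB h
  rw [sgn, hx.signature_eq hB]
  have h1 : m ≤ N := h m x hx.ne hx.orth
  refine (Finset.abs_sum_le_sum_abs _ _).trans ?_
  have h2 : ∀ i ∈ (univ : Finset (Fin m)),
      |((SignType.sign (B (x i) (x i)) : SignType) : ℤ)| ≤ 1 := by
    intro i _
    rcases lt_trichotomy (B (x i) (x i)) 0 with h0 | h0 | h0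
    · rw [sign_neg h0]; simp
    · rw [h0]; simp
    · rw [sign_pos h0]; simp
  refine (Finset.sum_le_sum h2).trans ?_
  rw [Finset.sum_const, Finset.card_univ, Fintype.card_fin, nsmul_eq_mul, mul_one]
  exact_mod_cast h1

lemma Bd.comp (h : Bd B N) {E : M →ₗ[ℚ] M} (hE : ∀ x y, B (E x) y = B x (E y))
    (hEE : ∀ x, E (E x) = E x) : Bd (B ∘ₗ E) N := by
  intro m x h1 h2
  have h3 : ∀ i j, B (E (x i)) (E (x j)) = (B ∘ₗ E) (x i) (x j) := by
    intro i j
    rw [← hE, hEE, LinearMap.comp_apply]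
  exact h m (fun i => E (x i)) (fun i => by rw [h3]; exact h1 i)
    (fun i j hij => by rw [h3]; exact h2 i j hij)

/-- Additivity of the signature. -/
theorem sgn_add (hB : ∀ x y, B x y = B y x) (h : Bd B N) {E F : M →ₗ[ℚ] M}
    (hEF : ∀ x, E x + F x = x) (hE : ∀ x y, B (E x) y = B x (E y))
    (hEE : ∀ x, E (E x) = E x) : sgn B = sgn (B ∘ₗ E) + sgn (B ∘ₗ F) := by
  have hFx : ∀ x, F x = x - E x := fun x => by rw [eq_sub_iff_add_eq, add_comm]; exact hEF x
  have hF : ∀ x y, B (F x) y = B x (F y) := by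
    intro x y
    rw [hFx, hFx, map_sub, map_sub, LinearMap.sub_apply, hE]
  have hFF : ∀ x, F (F x) = F x := by
    intro x
    rw [hFx (F x), hFx x, map_sub, hEE, sub_self, sub_zero]
  have hEF0 : ∀ x, E (F x) = 0 := by
    intro x
    rw [hFx, map_sub, hEE, sub_self]
  have hFE0 : ∀ x, F (E x) = 0 := by
    intro x
    rw [hFx, hEE, sub_self]
  have hBE : ∀ x y, (B ∘ₗ E) x y = (B ∘ₗ E) y x := by
    intro x y
    rw [LinearMap.comp_apply, LinearMap.comp_apply, hE, hB]
  have hBF : ∀ x y, (B ∘ₗ F) x y = (B ∘ₗ F) y x := by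
    intro x y
    rw [LinearMap.comp_apply, LinearMap.comp_apply, hF, hB]
  obtain ⟨m, x, hx⟩ := exists_OM hBE (h.comp hE hEE)
  obtain ⟨l, y, hy⟩ := exists_OM hBF (h.comp hF hFF)
  have h1 : ∀ i j, B (E (x i)) (E (x j)) = (B ∘ₗ E) (x i) (x j) := by
    intro i j
    rw [← hE, hEE, LinearMap.comp_apply]
  have h2 : ∀ i j, B (F (y i)) (F (y j)) = (B ∘ₗ F) (y i) (y j) := by
    intro i j
    rw [← hF, hFF, LinearMap.comp_apply]
  have hz : OM B (Sum.elim (fun i => E (x i)) (fun j => F (y j))) := by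
    refine ⟨?_, ?_, ?_⟩
    · rintro (i | j)
      · rw [Sum.elim_inl, h1]; exact hx.ne i
      · rw [Sum.elim_inr, h2]; exact hy.ne j
    · rintro (i | i) (j | j) hij
      · rw [Sum.elim_inl, Sum.elim_inl, h1]
        exact hx.orth i j (fun h => hij (by rw [h]))
      · rw [Sum.elim_inl, Sum.elim_inr, hE, hEF0, map_zero]
      · rw [Sum.elim_inl, Sum.elim_inr, hF, hFE0, map_zero]
      · rw [Sum.elim_inr, Sum.elim_inr, h2]
        exact hy.orth i j (fun h => hij (by rw [h]))
    · intro u hu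
      have e1 : (B ∘ₗ E) u u = 0 := by
        apply hx.max
        intro i
        have := hu (Sum.inl i)
        rw [Sum.elim_inl, ← hE] at this
        exact this
      have e2 : (B ∘ₗ F) u u = 0 := by
        apply hy.max
        intro j
        have := hu (Sum.inr j)
        rw [Sum.elim_inr, ← hF] at this
        exact this
      rw [LinearMap.comp_apply] at e1 e2
      have e3 : B u u = B (E u) u + B (F u) u := by
        rw [← LinearMap.add_apply, ← map_add, hEF]
      rw [e3, e1, e2, add_zero]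
  have e0 : sgn B = ∑ i, ((SignType.sign (B (Sum.elim (fun i => E (x i)) (fun j => F (y j)) i)
      (Sum.elim (fun i => E (x i)) (fun j => F (y j)) i)) : SignType) : ℤ) :=
    hz.signature_eq hB
  have e1 : sgn (B ∘ₗ E) = ∑ i, ((SignType.sign ((B ∘ₗ E) (x i) (x i)) : SignType) : ℤ) :=
    hx.signature_eq hBE
  have e2 : sgn (B ∘ₗ F) = ∑ i, ((SignType.sign ((B ∘ₗ F) (y i) (y i)) : SignType) : ℤ) :=
    hy.signature_eq hBF
  rw [e0, e1, e2, Fintype.sum_sum_type]
  simp only [Sum.elim_inl, Sum.elim_inr, h1, h2]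

/-- The signature vanishes if there is an operator which reverses the signs. -/
theorem sgn_eq_zero {c : ℚ} (hc : 0 < c) {J : M → M} (hJ : ∀ x y, B (J x) (J y) = -(c * B x y)) :
    sgn B = 0 := by
  have h : {r | PosFam (fun x y => B x y) r} = {r | PosFam (fun x y => -B x y) r} := by
    ext r
    constructor
    · rintro ⟨z, h1, h2⟩
      refine ⟨fun i => J (z i), fun i => ?_, fun i j hij => ?_⟩
      · change 0 < -B (J (z i)) (J (z i))
        rw [hJ, neg_neg]
        exact mul_pos hc (h1 i)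
      · change -B (J (z i)) (J (z j)) = 0
        have h3 : B (z i) (z j) = 0 := h2 i j hij
        rw [hJ, neg_neg, h3, mul_zero]
    · rintro ⟨z, h1, h2⟩
      refine ⟨fun i => J (z i), fun i => ?_, fun i j hij => ?_⟩
      · change 0 < B (J (z i)) (J (z i))
        rw [hJ]
        have := mul_pos hc (h1 i)
        linarith
      · change B (J (z i)) (J (z j)) = 0
        rw [hJ, neg_eq_zero.1 (h2 i j hij), mul_zero, neg_zero]
  rw [sgn, posIdx, posIdx, h, sub_self]

end Pool.Agent.Q55.Hs
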