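import Pool.Agent.W539.Ker.Fam
import Pool.Agent.Q55.Hs.Sgn

/-!
# The form on the sums of algebraic classes
-/

open CategoryTheory AlgebraicGeometry Finset

universe u v

namespace Pool.Agent.Q55.Hs

open Pool.Agent.H914 Pool.Agent.H914.VarClass Pool.Agent.H914.VarClass.Obj
  Pool.Agent.H914.WeilCohomology Pool.Agent.H281R3.HT Pool.Agent.W552 Pool.Agent.W539.Ker

variable {k : Type u} [Field k] {𝒱 : VarClass k} {ops : CycleOps 𝒱}
  {W : WeilCohomology.{u, v} ops} {X Y : 𝒱.Obj} {D : X.Cycles} {f : Module.End W.K (W.H X)}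

/-- The group of the sums of algebraic classes. -/
def AG (W : WeilCohomology.{u, v} ops) (X : 𝒱.Obj) : AddSubgroup (W.H X) where
  carrier := {x | AS W X x}
  zero_mem' := AS.zero
  add_mem' := AS.add
  neg_mem' := fun {x} hx => by
    have := AS.smul (-1) hx
    simpa using this

noncomputable instance instModAG (W : WeilCohomology.{u, v} ops) (X : 𝒱.Obj) :
    Module ℚ (AG W X) where
  smul q x := ⟨(q : W.K) • (x : W.H X), AS.smul q x.2⟩
  one_smul x := Subtype.ext (by
    change ((1 : ℚ) : W.K) • (x : W.H X) = x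
    rw [Rat.cast_one, one_smul])
  mul_smul p q x := Subtype.ext (by
    change ((p * q : ℚ) : W.K) • (x : W.H X) = (p : W.K) • ((q : W.K) • (x : W.H X))
    rw [Rat.cast_mul, mul_smul])
  smul_zero q := Subtype.ext (by
    change (q : W.K) • (0 : W.H X) = 0
    rw [smul_zero])
  smul_add q x y := Subtype.ext (by
    change (q : W.K) • ((x : W.H X) + y) = (q : W.K) • (x : W.H X) + (q : W.K) • (y : W.H X)
    rw [smul_add])
  add_smul p q x := Subtype.ext (by
    change ((p + q : ℚ) : W.K) • (x : W.H X) = (p : W.K) • (x : W.H X) + (q : W.K) • (x : W.H X)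
    rw [Rat.cast_add, add_smul])
  zero_smul x := Subtype.ext (by
    change ((0 : ℚ) : W.K) • (x : W.H X) = 0
    rw [Rat.cast_zero, zero_smul])

lemma coe_smul (q : ℚ) (x : AG W X) : ((q • x : AG W X) : W.H X) = (q : W.K) • (x : W.H X) := rfl

lemma par_AS {x : W.H X} (hx : AS W X x) : par (W.isInternal X) x = x := by
  refine AS.ind (p := fun x => par (W.isInternal X) x = x) ?_ ?_ hx
  · intro j x hx
    rw [par, scal_apply _ _ (alg_gr hx), pow_mul]
    simp
  · intro a b ha hb
    rw [map_add, ha, hb]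

lemma bf_symm_AS (S : Sy W X D f) {x y : W.H X} (hy : AS W X y) :
    bf W X D f x y = bf W X D f y x := by
  rw [S x y, par_AS hy]

/-- The rational form. -/
noncomputable def bq (F : Fr W X D f) (x y : AG W X) : ℚ := (F.bf_rat x.2 y.2).choose

lemma bq_cast (F : Fr W X D f) (x y : AG W X) :
    ((bq F x y : ℚ) : W.K) = bf W X D f (x : W.H X) (y : W.H X) :=
  (F.bf_rat x.2 y.2).choose_spec.symm

/-- The rational form as a bilinear map. -/
noncomputable def BF (F : Fr W X D f) : AG W X →ₗ[ℚ] AG W X →ₗ[ℚ] ℚ :=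
  LinearMap.mk₂ ℚ (bq F)
    (fun x x' y => by
      have h : ((bq F (x + x') y : ℚ) : W.K) = ((bq F x y + bq F x' y : ℚ) : W.K) := by
        rw [Rat.cast_add, bq_cast, bq_cast, bq_cast, AddSubgroup.coe_add, map_add,
          LinearMap.add_apply]
      exact_mod_cast h)
    (fun q x y => by
      have h : ((bq F (q • x) y : ℚ) : W.K) = ((q * bq F x y : ℚ) : W.K) := by
        rw [Rat.cast_mul, bq_cast, bq_cast, coe_smul, map_smul, LinearMap.smul_apply, smul_eq_mul]
      exact_mod_cast h)
    (fun x y y' => by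
      have h : ((bq F x (y + y') : ℚ) : W.K) = ((bq F x y + bq F x y' : ℚ) : W.K) := by
        rw [Rat.cast_add, bq_cast, bq_cast, bq_cast, AddSubgroup.coe_add, map_add]
      exact_mod_cast h)
    (fun q x y => by
      have h : ((bq F x (q • y) : ℚ) : W.K) = ((q * bq F x y : ℚ) : W.K) := by
        rw [Rat.cast_mul, bq_cast, bq_cast, coe_smul, map_smul, smul_eq_mul]
      exact_mod_cast h)

lemma BF_cast (F : Fr W X D f) (x y : AG W X) :
    ((BF F x y : ℚ) : W.K) = bf W X D f (x : W.H X) (y : W.H X) := bq_cast F x y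

lemma BF_symm (F : Fr W X D f) (S : Sy W X D f) (x y : AG W X) : BF F x y = BF F y x := by
  have h : ((BF F x y : ℚ) : W.K) = ((BF F y x : ℚ) : W.K) := by
    rw [BF_cast, BF_cast, bf_symm_AS S y.2]
  exact_mod_cast h

/-- The restriction of an algebraic operator. -/
def rs {u : Module.End W.K (W.H X)} (h : AOp W X X u) : AG W X →ₗ[ℚ] AG W X where
  toFun x := ⟨u x, h.apply x.2⟩
  map_add' x y := Subtype.ext (by
    change u ((x : W.H X) + y) = u x + u y
    rw [map_add])
  map_smul' q x := Subtype.ext (by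
    change u ((q : W.K) • (x : W.H X)) = (q : W.K) • u x
    rw [map_smul])

lemma coe_rs {u : Module.End W.K (W.H X)} (h : AOp W X X u) (x : AG W X) :
    ((rs h x : AG W X) : W.H X) = u x := rfl

/-- The number of members of an orthogonal family is at most the rank of the operator. -/
lemma bd_range (F : Fr W X D f) {u : Module.End W.K (W.H X)} (h : AOp W X X u) :
    Bd (BF F ∘ₗ rs h) (Module.finrank W.K (LinearMap.range u)) := by
  intro m x h1 h2
  have hc : ∀ i j, (((BF F ∘ₗ rs h) (x i) (x j) : ℚ) : W.K) =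
      bf W X D f (u (x i : W.H X)) (x j : W.H X) := by
    intro i j
    rw [LinearMap.comp_apply, BF_cast, coe_rs]
  have hli : LinearIndependent W.K (fun i => (⟨u (x i : W.H X), LinearMap.mem_range_self _ _⟩ :
      LinearMap.range u)) := by
    rw [Fintype.linearIndependent_iff]
    intro g hg i
    have h3 : ∑ j, g j • u (x j : W.H X) = 0 := by
      have := congrArg Subtype.val hg
      rw [Submodule.coe_zero, Submodule.coe_sum] at this
      exact this
    have h4 := congrArg (fun a => bf W X D f a (x i : W.H X)) h3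
    simp only [map_sum, LinearMap.sum_apply, map_smul, LinearMap.smul_apply, map_zero,
      LinearMap.zero_apply, smul_eq_mul] at h4
    rw [Finset.sum_eq_single i] at h4
    · rw [← hc] at h4
      rcases mul_eq_zero.1 h4 with h5 | h5
      · exact h5
      · exact absurd (by exact_mod_cast h5) (h1 i)
    · intro j _ hj
      rw [← hc, h2 j i hj, Rat.cast_zero, mul_zero]
    · intro h0; exact absurd (Finset.mem_univ _) h0
  have := hli.fintype_card_le_finrank
  rwa [Fintype.card_fin] at this

/-- The signature of the form `bf (u x) y`. -/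
noncomputable def sg' (F : Fr W X D f) {u : Module.End W.K (W.H X)} (h : AOp W X X u) : ℤ :=
  sgn (BF F ∘ₗ rs h)

/-- The operator is self-adjoint. -/
def SA (W : WeilCohomology.{u, v} ops) (X : 𝒱.Obj) (D : X.Cycles)
    (f u : Module.End W.K (W.H X)) : Prop :=
  ∀ x y, bf W X D f (u x) y = bf W X D f x (u y)

lemma SA.rs {F : Fr W X D f} {u : Module.End W.K (W.H X)} (h : AOp W X X u)
    (hu : SA W X D f u) (x y : AG W X) : BF F (Hs.rs h x) y = BF F x (Hs.rs h y) := by
  have h1 : ((BF F (Hs.rs h x) y : ℚ) : W.K) = ((BF F x (Hs.rs h y) : ℚ) : W.K) := by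
    rw [BF_cast, BF_cast]
    exact hu _ _
  exact_mod_cast h1

lemma comp_symm (F : Fr W X D f) (S : Sy W X D f) {u : Module.End W.K (W.H X)}
    (h : AOp W X X u) (hu : SA W X D f u) (x y : AG W X) :
    (BF F ∘ₗ rs h) x y = (BF F ∘ₗ rs h) y x := by
  rw [LinearMap.comp_apply, LinearMap.comp_apply, hu.rs h, BF_symm F S]

/-- **The rank bound.** -/
theorem abs_sg_le (F : Fr W X D f) (S : Sy W X D f) {u : Module.End W.K (W.H X)}
    (h : AOp W X X u) (hu : SA W X D f u) :
    |sg' F h| ≤ Module.finrank W.K (LinearMap.range u) :=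
  abs_sgn_le (comp_symm F S h hu) (bd_range F h)

/-- **Removing an idempotent with an operator which reverses the signs.** -/
theorem sg_remove (F : Fr W X D f) (S : Sy W X D f) {u e J : Module.End W.K (W.H X)}
    (h : AOp W X X u) (hu : SA W X D f u) (he : AOp W X X e) (hes : SA W X D f e)
    (hee : e * e = e) (hue : u * e = e * u) (hJ : AOp W X X J) (hJs : SA W X D f J)
    (hJu : J * u = u * J) {c : ℚ} (hc : 0 < c) (hJJ : J * J = ((-c : ℚ) : W.K) • e)
    (h' : AOp W X X (u * (1 - e))) : sg' F h = sg' F h' := by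
  have hJe : J * e = e * J := by
    have e1 : J * (J * J) = (J * J) * J := (mul_assoc _ _ _).symm
    rw [hJJ, mul_smul_comm, smul_mul_assoc] at e1
    exact smul_right_injective _ (show ((-c : ℚ) : W.K) ≠ 0 by
      exact_mod_cast (neg_ne_zero.2 hc.ne')) e1
  have hE : ∀ x y, (BF F ∘ₗ rs h) (rs he x) y = (BF F ∘ₗ rs h) x (rs he y) := by
    intro x y
    have h1 : (((BF F ∘ₗ rs h) (rs he x) y : ℚ) : W.K) =
        (((BF F ∘ₗ rs h) x (rs he y) : ℚ) : W.K) := by
      rw [LinearMap.comp_apply, LinearMap.comp_apply, BF_cast, BF_cast, coe_rs, coe_rs, coe_rs,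
        coe_rs, ← hes, ← Module.End.mul_apply, ← Module.End.mul_apply, hue]
    exact_mod_cast h1
  have hEE : ∀ x, rs he (rs he x) = rs he x := by
    intro x
    apply Subtype.ext
    rw [coe_rs, coe_rs, ← Module.End.mul_apply, hee]
  have h1e : AOp W X X (1 - e) := by
    have := AOp.one.add (he.smul (-1))
    have h2 : (1 : Module.End W.K (W.H X)) + (((-1 : ℚ)) : W.K) • e = 1 - e := by
      rw [Rat.cast_neg, Rat.cast_one]
      module
    rwa [h2] at this
  have hEF : ∀ x, rs he x + rs h1e x = x := by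
    intro x
    apply Subtype.ext
    rw [AddSubgroup.coe_add, coe_rs, coe_rs, LinearMap.sub_apply, Module.End.one_apply,
      add_sub_cancel]
  have key := sgn_add (comp_symm F S h hu) (bd_range F h) hEF hE hEE
  have hz : sgn ((BF F ∘ₗ rs h) ∘ₗ rs he) = 0 := by
    refine sgn_eq_zero hc (J := rs hJ) ?_
    intro x y
    have h1 : ((((BF F ∘ₗ rs h) ∘ₗ rs he) (rs hJ x) (rs hJ y) : ℚ) : W.K) =
        ((-(c * ((BF F ∘ₗ rs h) ∘ₗ rs he) x y) : ℚ) : W.K) := by
      rw [Rat.cast_neg, Rat.cast_mul, LinearMap.comp_apply, LinearMap.comp_apply,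
        LinearMap.comp_apply, LinearMap.comp_apply, BF_cast, BF_cast, coe_rs, coe_rs, coe_rs,
        coe_rs, coe_rs, coe_rs, ← hJs]
      have h2 : J (u (e (J (x : W.H X)))) = ((-c : ℚ) : W.K) • u (e (x : W.H X)) := by
        have h3 : J * (u * (e * J)) = ((-c : ℚ) : W.K) • (u * e) := by
          calc J * (u * (e * J)) = (J * u) * (e * J) := (mul_assoc _ _ _).symm
            _ = u * (J * (e * J)) := by rw [hJu, mul_assoc]
            _ = u * ((J * e) * J) := by rw [mul_assoc]
            _ = u * (e * (J * J)) := by rw [hJe, mul_assoc]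
            _ = ((-c : ℚ) : W.K) • (u * e) := by
              rw [hJJ, mul_smul_comm, mul_smul_comm, hee]
        exact congrArg (fun G => G (x : W.H X)) h3
      rw [h2, map_smul, LinearMap.smul_apply, smul_eq_mul, Rat.cast_neg, neg_mul]
    exact_mod_cast h1
  have hl : (BF F ∘ₗ rs h) ∘ₗ rs h1e = BF F ∘ₗ rs h' := by
    apply LinearMap.ext
    intro x
    rw [LinearMap.comp_apply, LinearMap.comp_apply, LinearMap.comp_apply]
    congr 1
  rw [sg', key, hz, zero_add, hl, sg']

end Pool.Agent.Q55.Hs
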