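import Pool.Agent.Q55.Hs.Rank
import Pool.Agent.Q55.ZeroOneDefs
import Pool.Agent.Y133.Half.Index

/-!
# Isomorphisms of polarized varieties
-/

open CategoryTheory AlgebraicGeometry Finset

universe u v

namespace Pool.Agent.Q55.Hs

open Module
open Pool.Agent.H914 Pool.Agent.H914.VarClass Pool.Agent.H914.VarClass.Obj
  Pool.Agent.H914.WeilCohomology Pool.Agent.H281R3.HT Pool.Agent.W552 Pool.Agent.W539.Ker
open Pool.Agent.Y133.Half (algSys cycRank numDim_eq_cycRank pw algDim xp xp_ext xpL_ext tr_xp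
  map_xp θ₃ θ₃_xp prodCongr)

variable {k : Type u} [Field k] {𝒱 : VarClass k} {ops : CycleOps 𝒱}
  {W : WeilCohomology.{u, v} ops} {X Y Z : 𝒱.Obj} {D : X.Cycles} {E : Y.Cycles} {B : Z.Cycles}

/-- The polarized varieties `X` and `Y` are isomorphic. -/
def PI (W : WeilCohomology.{u, v} ops) (X : 𝒱.Obj) (D : X.Cycles) (Y : 𝒱.Obj) (E : Y.Cycles) :
    Prop :=
  X.dim = Y.dim ∧ ∃ θ : X ≅ Y, W.map θ.hom (W.cl Y E) = W.cl X D ∧
    ∀ c, W.tr X (W.map θ.hom c) = W.tr Y c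

lemma PI.refl : PI W X D X D := by
  refine ⟨rfl, Iso.refl X, ?_, fun c => ?_⟩
  · exact W.map_id _ _
  · exact congrArg _ (W.map_id _ _)

lemma PI.symm (h : PI W X D Y E) : PI W Y E X D := by
  obtain ⟨hd, θ, h1, h2⟩ := h
  refine ⟨hd.symm, θ.symm, ?_, fun c => ?_⟩
  · change W.map θ.inv _ = _
    rw [← h1, ← W.map_comp, θ.inv_hom_id, W.map_id]
  · change W.tr Y (W.map θ.inv c) = _
    rw [← h2, ← W.map_comp, θ.hom_inv_id, W.map_id]

lemma PI.trans (h : PI W X D Y E) (h' : PI W Y E Z B) : PI W X D Z B := by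
  obtain ⟨hd, θ, h1, h2⟩ := h
  obtain ⟨hd', θ', h1', h2'⟩ := h'
  refine ⟨hd.trans hd', θ ≪≫ θ', ?_, fun c => ?_⟩
  · rw [Iso.trans_hom, W.map_comp, h1', h1]
  · rw [Iso.trans_hom, W.map_comp, h2, h2']

lemma PI.left (h : PI W X D Y E) : PI W (X.prod Z) (ops.pull (fst X Z) D + ops.pull (snd X Z) B)
    (Y.prod Z) (ops.pull (fst Y Z) E + ops.pull (snd Y Z) B) := by
  obtain ⟨hd, θ, h1, h2⟩ := h
  have e1 : (prodCongr θ (Iso.refl Z)).hom ≫ fst Y Z = fst X Z ≫ θ.hom := Obj.lift_fst _ _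
  have e2 : (prodCongr θ (Iso.refl Z)).hom ≫ snd Y Z = snd X Z := by
    refine (Obj.lift_snd _ _).trans ?_
    exact Category.comp_id _
  refine ⟨by rw [dim_prod, dim_prod, hd], prodCongr θ (Iso.refl Z), ?_, fun c => ?_⟩
  · rw [map_add, map_add, W.cl_pull, W.cl_pull, ← W.map_comp, ← W.map_comp, e1, e2, W.map_comp,
      h1, map_add, W.cl_pull, W.cl_pull]
  · have h3 : W.tr (X.prod Z) ∘ₗ (W.map (prodCongr θ (Iso.refl Z)).hom).toLinearMap =
        W.tr (Y.prod Z) := by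
      apply xp_ext
      intro i j a _ b _
      rw [LinearMap.comp_apply, AlgHom.toLinearMap_apply, map_xp, e1, e2, W.map_comp, tr_xp,
        ← h2 a, ← tr_xp]
      rfl
    exact congrArg (fun F => F c) h3

lemma PI.assoc : PI W ((X.prod Y).prod Z)
    (ops.pull (fst (X.prod Y) Z) (ops.pull (fst X Y) D + ops.pull (snd X Y) E) +
      ops.pull (snd (X.prod Y) Z) B)
    (X.prod (Y.prod Z)) (ops.pull (fst X (Y.prod Z)) D +
      ops.pull (snd X (Y.prod Z)) (ops.pull (fst Y Z) E + ops.pull (snd Y Z) B)) := by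
  refine ⟨by rw [dim_prod, dim_prod, dim_prod, dim_prod, add_assoc], θ₃ X Y Z, ?_, fun c => ?_⟩
  · have e1 : (θ₃ X Y Z).hom ≫ fst _ _ = fst _ _ ≫ fst _ _ := Obj.lift_fst _ _
    have e2 : (θ₃ X Y Z).hom ≫ snd _ _ = Obj.lift (fst _ _ ≫ snd _ _) (snd _ _) :=
      Obj.lift_snd _ _
    have e3 : (θ₃ X Y Z).hom ≫ snd _ _ ≫ fst Y Z = fst _ _ ≫ snd _ _ := by
      rw [← Category.assoc, e2, Obj.lift_fst]
    have e4 : (θ₃ X Y Z).hom ≫ snd _ _ ≫ snd Y Z = snd _ _ := by
      rw [← Category.assoc, e2, Obj.lift_snd]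
    simp only [map_add, W.cl_pull, ← W.map_comp]
    rw [e1, e3, e4, add_assoc]
  · have h3 : W.tr ((X.prod Y).prod Z) ∘ₗ (W.map (θ₃ X Y Z).hom).toLinearMap =
        W.tr (X.prod (Y.prod Z)) := by
      apply xpL_ext
      intro i j l p _ a _ b _
      rw [LinearMap.comp_apply, AlgHom.toLinearMap_apply, θ₃_xp, tr_xp, tr_xp, tr_xp, tr_xp,
        mul_assoc]
    exact congrArg (fun F => F c) h3

lemma hasFamily_iso (hD : X.IsCyc 1 D) (hE : Y.IsCyc 1 E) (h : PI W X D Y E) {n : ℕ}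
    (hn : 2 * n ≤ X.dim) {s : ℚ} {r : ℕ} (hf : HasFamily W Y E n s r) :
    HasFamily W X D n s r := by
  obtain ⟨hd, θ, hcl, htr⟩ := h
  obtain ⟨z, hz, hpos, horth⟩ := hf
  have hpow : ∀ (m : ℕ) (x : W.H Y),
      ((LinearMap.mulLeft W.K (W.cl X D)) ^ m) (W.map θ.hom x) =
        W.map θ.hom (((LinearMap.mulLeft W.K (W.cl Y E)) ^ m) x) := by
    intro m
    induction m with
    | zero => intro x; simp
    | succ m ih =>
      intro x
      rw [pow_succ, Module.End.mul_apply, LinearMap.mulLeft_apply, ← hcl, ← map_mul, hcl, ih,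
        pow_succ, Module.End.mul_apply, LinearMap.mulLeft_apply]
  have hprim : ∀ i, Primitive W X D n (ops.pull θ.hom (z i)) := by
    intro i
    refine ⟨ops.pull_mem _ (hz i).1, ?_⟩
    have h1 := (hz i).2
    rw [cl_divPow] at h1
    rw [cl_divPow, W.cl_pull, hpow, hd, h1, map_zero]
  have hpair : ∀ i j, pairing ops X D n (ops.pull θ.hom (z i)) (ops.pull θ.hom (z j)) =
      pairing ops Y E n (z i) (z j) := by
    intro i j
    have h1 : ((pairing ops X D n (ops.pull θ.hom (z i)) (ops.pull θ.hom (z j)) : ℚ) : W.K) =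
        ((pairing ops Y E n (z i) (z j) : ℚ) : W.K) := by
      rw [pairing_cast hD hn (hprim i).1 (hprim j).1,
        pairing_cast hE (by omega) (hz i).1 (hz j).1, W.cl_pull, W.cl_pull, hpow,
        ← map_mul, htr, hd]
    exact_mod_cast h1
  exact ⟨fun i => ops.pull θ.hom (z i), hprim, fun i => by rw [hpair]; exact hpos i,
    fun i j hij => by rw [hpair]; exact horth i j hij⟩

lemma sig_iso (hD : X.IsCyc 1 D) (hE : Y.IsCyc 1 E) (h : PI W X D Y E) {n : ℕ}
    (hn : 2 * n ≤ X.dim) : sig W X D n = sig W Y E n := by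
  rw [W539.Ker.sig, W539.Ker.sig]
  have h' : ∀ s, {r | HasFamily W X D n s r} = {r | HasFamily W Y E n s r} := by
    intro s
    ext r
    have hn' : 2 * n ≤ Y.dim := by rw [← h.1]; exact hn
    exact ⟨fun hf => hasFamily_iso hE hD h.symm hn' hf, fun hf => hasFamily_iso hD hE h hn hf⟩
  rw [h', h']

/-- The total signature is an invariant of polarized varieties. -/
theorem totalSig_iso (hD : X.IsCyc 1 D) (hE : Y.IsCyc 1 E) (h : PI W X D Y E) :
    totalSig W X D = totalSig W Y E := by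
  rw [totalSig, totalSig, h.1]
  apply Finset.sum_congr rfl
  intro n hn
  rw [Finset.mem_range] at hn
  rw [sig_iso hD hE h (by rw [h.1]; omega)]

theorem absSig_iso (hD : X.IsCyc 1 D) (hE : Y.IsCyc 1 E) (h : PI W X D Y E) :
    absSig W X D = absSig W Y E := by
  rw [absSig, absSig, h.1]
  apply Finset.sum_congr rfl
  intro n hn
  rw [Finset.mem_range] at hn
  rw [sig_iso hD hE h (by rw [h.1]; omega)]

/-- Powers of a polarized variety. -/
lemma pi_pw (X : 𝒱.Obj) (D : X.Cycles) (m : ℕ) : ∀ n,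
    PI W ((pw X m).prod (pw X n)) (ops.pull (fst _ _) (pwDiv ops D m) +
      ops.pull (snd _ _) (pwDiv ops D n)) (pw X (m + n + 1)) (pwDiv ops D (m + n + 1))
  | 0 => PI.refl
  | n + 1 => (PI.assoc (W := W) (D := pwDiv ops D m) (E := pwDiv ops D n) (B := D)).symm.trans
      (PI.left (pi_pw X D m n))

end Pool.Agent.Q55.Hs
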