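import Pool.Agent.Q55.Hs.Block
import Pool.Agent.Y163.Wed
import Pool.Agent.Y163.Duo

/-!
# Lower bound for the rank of the cycles on the powers modulo numerical equivalence
-/

open CategoryTheory AlgebraicGeometry Finset

universe u v

namespace Pool.Agent.Q55.Hs

open Module
open Pool.Agent.H914 Pool.Agent.H914.VarClass Pool.Agent.H914.VarClass.Obj
  Pool.Agent.H914.WeilCohomology Pool.Agent.H281R3.HT Pool.Agent.W552 Pool.Agent.W539.Ker
open Pool.Agent.Y133.Half (algSys cycRank numDim_eq_cycRank pw algDim finrank_pw finrank_prod Sys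
  repAlg rho rk xp tr_xp xp_mul PH pwAdd)

variable {k : Type u} [Field k] {𝒱 : VarClass k} {ops : CycleOps 𝒱}
  {W : WeilCohomology.{u, v} ops} {X Z P : 𝒱.Obj} {D : X.Cycles} {B : Z.Cycles} {E : P.Cycles}

lemma AOp.mem_Op {Y : 𝒱.Obj} {u : W.H X →ₗ[W.K] W.H Y} (h : AOp W X Y u) :
    u ∈ (algSys W).Op X Y := by
  obtain ⟨c, hc, rfl⟩ := h
  exact Sys.Op.corr (AS.mem_algSpan hc)

lemma par_prod' {Y : 𝒱.Obj} : par (W.isInternal (X.prod Y)) =
    extOp W (par (W.isInternal X)) (par (W.isInternal Y)) := by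
  apply LinearMap.ext
  intro x
  refine W.kunneth_induction (p := fun x => par (W.isInternal (X.prod Y)) x =
    extOp W (par (W.isInternal X)) (par (W.isInternal Y)) x) ?_ ?_ x
  · intro a b ha hb
    rw [map_add, map_add, ha, hb]
  · intro i j a ha b hb
    rw [extOp_tmul, par, par, par, scal_apply _ _ (W.mul_mem (W.map_mem _ ha) (W.map_mem _ hb)),
      scal_apply _ _ ha, scal_apply _ _ hb, map_smul, map_smul, smul_mul_assoc, mul_smul_comm,
      smul_smul, pow_add]

/-- The parity operator of a power. -/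
lemma par_pw (S : Sys W) (h : par (W.isInternal X) ∈ S.Op X X) :
    ∀ n, par (W.isInternal (pw X n)) ∈ S.Op (pw X n) (pw X n)
  | 0 => h
  | n + 1 => by
    change par (W.isInternal ((pw X n).prod X)) ∈ S.Op ((pw X n).prod X) ((pw X n).prod X)
    rw [par_prod']
    exact Sys.Op.ext (par_pw S h n) h

lemma rk_compl_le {K A B A' B' : Type*} [Field K] [AddCommGroup A] [Module K A] [AddCommGroup B]
    [Module K B] [AddCommGroup A'] [Module K A'] [AddCommGroup B'] [Module K B']
    [Module.Finite K B] (β : A →ₗ[K] B →ₗ[K] K) (f : A' →ₗ[K] A) (g : B' →ₗ[K] B) :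
    rk (β.compl₁₂ f g) ≤ rk β :=
  Pool.Agent.Y163.finrank_range_comp_comp_le f β g.dualMap

lemma finrank_le_rk {K A B A' : Type*} [Field K] [AddCommGroup A] [Module K A] [AddCommGroup B]
    [Module K B] [AddCommGroup A'] [Module K A'] [Module.Finite K A'] [Module.Finite K B]
    (β : A →ₗ[K] B →ₗ[K] K)
    (f : A' →ₗ[K] A) (g : A' →ₗ[K] B) (h : ∀ u, (∀ v, β (f u) (g v) = 0) → u = 0) :
    finrank K A' ≤ rk β := by
  have hinj : Function.Injective (β.compl₁₂ f g) := by
    rw [← LinearMap.ker_eq_bot, LinearMap.ker_eq_bot']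
    intro u hu
    exact h u fun v => congrArg (fun F => F v) hu
  have e1 : rk (β.compl₁₂ f g) = finrank K A' := LinearMap.finrank_range_of_inj hinj
  rw [← e1]
  exact rk_compl_le β f g

/-- **Lower bound.** -/
theorem growth_num (S : Sys W) (h : par (W.isInternal X) ∈ S.Op X X) (n : ℕ) :
    finrank W.K (W.H X) ^ (2 * (n + 1)) ≤
      S.al X n * (n + 2) ^ (finrank W.K (W.H X) ^ 2) := by
  classical
  set P := pw X n with hP
  set ρ := rho W X n with hρ
  set B₀ := repAlg ρ with hB₀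
  have hle : ∀ u ∈ B₀, u ∈ S.Op P P := fun u hu =>
    S.span_rho_le X n (Pool.Agent.Y133.Half.repAlg_le ρ hu)
  have hpar := par_pw S h n
  -- the two maps
  let M₀ : Submodule W.K (Module.End W.K (W.H P)) := Subalgebra.toSubmodule B₀
  let ι : M₀ →ₗ[W.K] S.Op P P := Submodule.inclusion hle
  let κ : M₀ →ₗ[W.K] S.Op P P :=
    (LinearMap.mulLeft W.K (par (W.isInternal P))).restrict
      (p := M₀) (q := S.Op P P) (fun u hu => Sys.Op.comp hpar (hle u hu))
  have hform : ∀ u v : M₀, S.BO P P 1 1 (ι u) (κ v) =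
      LinearMap.trace W.K (W.H P) ((u : Module.End W.K (W.H P)) * (v : Module.End W.K (W.H P))) := by
    intro u v
    rw [Sys.BO_apply]
    change LinearMap.trace W.K (W.H P) (par (W.isInternal P) ∘ₗ (1 : Module.End W.K (W.H P)) ∘ₗ
      (u : Module.End W.K (W.H P)) ∘ₗ (1 : Module.End W.K (W.H P)) ∘ₗ par (W.isInternal P) ∘ₗ
        (v : Module.End W.K (W.H P))) = _
    have h1 := (Sys.Op.ev (hle u u.2)).par_comm
    have h2 : par (W.isInternal P) * (u : Module.End W.K (W.H P)) =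
        (u : Module.End W.K (W.H P)) * par (W.isInternal P) := h1
    change LinearMap.trace W.K (W.H P) (par (W.isInternal P) * (1 * ((u : Module.End W.K (W.H P)) *
      (1 * (par (W.isInternal P) * (v : Module.End W.K (W.H P))))))) = _
    rw [one_mul, one_mul, ← mul_assoc, ← mul_assoc, h2, mul_assoc (u : Module.End W.K (W.H P)),
      H914.par_mul_par, mul_one]
  have h1 : finrank W.K M₀ ≤ S.al X n := by
    have e2 := finrank_le_rk (A := S.Op P P) (B := S.Op P P) (A' := M₀)
      (S.BO P P 1 1) ι κ (by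
        intro u hu
        have h2 : (u : Module.End W.K (W.H P)) ∈ Pool.Agent.Y163.rad B₀ := by
          refine ⟨u.2, fun y hy => ?_⟩
          have h3 := hu ⟨y, hy⟩
          rw [hform] at h3
          exact h3
        have h3 := (Pool.Agent.Y163.mem_rad_iff B₀ ⟨u, u.2⟩).1 h2
        rw [IsSemisimpleRing.jacobson_eq_bot] at h3
        exact Subtype.ext (congrArg Subtype.val h3))
    have e3 : rk (A := S.Op P P) (B := S.Op P P) (S.BO P P 1 1) =
        rk (S.F (P.prod P) (extOp W 1 1)) :=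
      Sys.rk_BO S (M := P) (N := P) (g := 1) (g' := 1) (g'' := 1) Pool.Agent.Y133.Half.Ev.id
        Pool.Agent.Y133.Half.Ev.id Pool.Agent.Y133.Half.Adj.one
    rw [extOp_one] at e3
    change finrank W.K M₀ ≤ rk (S.F (P.prod P) 1)
    rw [← e3]
    exact e2
  obtain ⟨e, he⟩ := Pool.Agent.Y133.Half.exists_hbasis W X
  have h2 := Pool.Agent.Y133.Half.span_perm (Pool.Agent.Y133.Half.wb e n) ρ
    (Pool.Agent.Y133.Half.tau_wb e he n)
  have h3 : finrank W.K (Submodule.span W.K (Set.range ρ)) ≤ finrank W.K M₀ := by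
    apply Submodule.finrank_mono
    rw [Submodule.span_le]
    rintro _ ⟨σ, rfl⟩
    exact Pool.Agent.Y133.Half.rep_mem ρ σ
  rw [finrank_pw, ← pow_mul, Fintype.card_fin] at h2
  calc finrank W.K (W.H X) ^ (2 * (n + 1)) = finrank W.K (W.H X) ^ ((n + 1) * 2) := by
        rw [mul_comm]
    _ ≤ _ := h2
    _ ≤ _ := Nat.mul_le_mul_right _ (h3.trans h1)

/-- The rank does not decrease under products with a variety with a class of degree one. -/
lemma a_mono (S : Sys W) {l : W.H X} (hl : l ∈ S.C X) (hl1 : W.tr X l = 1) (Z : 𝒱.Obj) :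
    S.a Z ≤ S.a (Z.prod X) := by
  let i₁ : S.C Z →ₗ[W.K] S.C (Z.prod X) := S.mapS (fst Z X)
  let i₂ : S.C Z →ₗ[W.K] S.C (Z.prod X) :=
    { toFun := fun c => ⟨xp W (c : W.H Z) l, Sys.xp_mem_C S c.2 hl⟩
      map_add' := fun c d => Subtype.ext (Pool.Agent.Y133.Half.xp_add_left _ _ _)
      map_smul' := fun r c => Subtype.ext (by
        change xp W (r • (c : W.H Z)) l = r • xp W (c : W.H Z) l
        rw [xp, map_smul, smul_mul_assoc]; rfl) }
  have h : (S.F (Z.prod X) 1).compl₁₂ i₁ i₂ = S.F Z 1 := by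
    apply LinearMap.ext
    intro c
    apply LinearMap.ext
    intro d
    rw [LinearMap.compl₁₂_apply, Sys.F_apply, Sys.F_apply]
    change W.tr (Z.prod X) (W.map (fst Z X) (c : W.H Z) * (W.map (fst Z X) (d : W.H Z) *
      W.map (snd Z X) l)) = W.tr Z ((c : W.H Z) * d)
    rw [← mul_assoc, ← map_mul, W.tr_prod, hl1, mul_one]
  change rk (S.F Z 1) ≤ rk (S.F (Z.prod X) 1)
  rw [← h]
  exact rk_compl_le _ _ _

/-- **Lower bound for all powers.** -/
theorem low_pw (S : Sys W) (h : par (W.isInternal X) ∈ S.Op X X) {l : W.H X} (hl : l ∈ S.C X)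
    (hl1 : W.tr X l = 1) (n : ℕ) : finrank W.K (W.H X) ^ (n + 1) ≤
      finrank W.K (W.H X) * (S.a (pw X n) * (n + 2) ^ (finrank W.K (W.H X) ^ 2)) := by
  set b := finrank W.K (W.H X) with hb
  have hX : 0 < b := by
    have : Nontrivial (W.H X) := ⟨⟨l, 0, Pool.Agent.Y133.Half.ne_zero_of_tr hl1⟩⟩
    exact Module.finrank_pos
  have hodd : ∀ q, b ^ (2 * (q + 1)) ≤ S.a (pw X (q + q + 1)) * (q + 2) ^ (b ^ 2) := by
    intro q
    rw [← S.a_iso (pwAdd X q q)]
    exact growth_num S h q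
  rcases Nat.eq_zero_or_pos n with h0 | h0
  · subst h0
    rw [zero_add, pow_one]
    have h1 : 0 < S.a (pw X 0) := S.a_pos hl hl1
    have h2 : 0 < S.a (pw X 0) * (0 + 2) ^ (b ^ 2) := by positivity
    exact Nat.le_mul_of_pos_right b h2
  · rcases Nat.even_or_odd n with he | ho
    · obtain ⟨q, hq⟩ : ∃ q, n = (q + q + 1) + 1 := by
        obtain ⟨r, hr⟩ := he
        exact ⟨r - 1, by omega⟩
      have h1 := hodd q
      have h2 := a_mono S hl hl1 (pw X (q + q + 1))
      have h3 : S.a (pw X n) = S.a ((pw X (q + q + 1)).prod X) := by rw [hq]; rfl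
      have h4 : (q + 2) ^ (b ^ 2) ≤ (n + 2) ^ (b ^ 2) := Nat.pow_le_pow_left (by omega) _
      rw [show n + 1 = 2 * (q + 1) + 1 by omega, pow_succ, mul_comm]
      refine Nat.mul_le_mul_left b ?_
      rw [h3]
      exact h1.trans (Nat.mul_le_mul h2 h4)
    · obtain ⟨q, hq⟩ : ∃ q, n = q + q + 1 := by
        obtain ⟨r, hr⟩ := ho
        exact ⟨r, by omega⟩
      have h1 := hodd q
      have h4 : (q + 2) ^ (b ^ 2) ≤ (n + 2) ^ (b ^ 2) := Nat.pow_le_pow_left (by omega) _
      rw [show n + 1 = 2 * (q + 1) by omega]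
      have h5 : b ^ (2 * (q + 1)) ≤ S.a (pw X n) * (n + 2) ^ (b ^ 2) := by
        rw [hq] at h4 ⊢
        exact h1.trans (Nat.mul_le_mul_left _ h4)
      exact h5.trans (Nat.le_mul_of_pos_left _ hX)

end Pool.Agent.Q55.Hs
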