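import Pool.Agent.Q55.Hs.Low
import Pool.Agent.Q55.ZeroOne

/-!
# The trichotomy for the standard conjecture of Hodge type on the powers of a variety
-/

open CategoryTheory AlgebraicGeometry Filter Topology

universe u v

namespace Pool.Agent.Q55.Hs

open Module
open Pool.Agent.H914 Pool.Agent.H914.VarClass Pool.Agent.H914.VarClass.Obj
  Pool.Agent.H914.WeilCohomology Pool.Agent.H281R3.HT Pool.Agent.W552 Pool.Agent.W539.Ker
open Pool.Agent.Y133.Half (algSys cycRank numDim_eq_cycRank pw algDim algDim_eq finrank_pw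
  finrank_prod d_law homEqNum_iff')

lemma exists_bound (K : ℕ) {r : ℝ} (h0 : 0 < r) (h1 : r < 1) :
    ∃ C : ℝ, 0 ≤ C ∧ ∀ n : ℕ, ((n : ℝ) + 2) ^ K * r ^ n ≤ C := by
  have h := tendsto_pow_const_mul_const_pow_of_abs_lt_one K (r := r) (by
    rw [abs_of_pos h0]; exact h1)
  obtain ⟨C, hC⟩ := h.bddAbove_range
  have hC' : ∀ n : ℕ, (n : ℝ) ^ K * r ^ n ≤ C := fun n => hC ⟨n, rfl⟩
  refine ⟨(r ^ 2)⁻¹ * C, ?_, fun n => ?_⟩
  · have := hC' 0
    have h2 : (0 : ℝ) ≤ ((0 : ℕ) : ℝ) ^ K * r ^ 0 := by positivity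
    exact mul_nonneg (by positivity) (h2.trans this)
  · have h2 := hC' (n + 2)
    have h3 : ((n : ℝ) + 2) ^ K * r ^ n = (r ^ 2)⁻¹ * ((((n + 2 : ℕ) : ℝ)) ^ K * r ^ (n + 2)) := by
      push_cast
      rw [pow_add r n 2]
      field_simp
    rw [h3]
    exact mul_le_mul_of_nonneg_left h2 (by positivity)

/-- Exponential decay of the ratio. -/
theorem decay {b m K d : ℕ} (hb : 2 ≤ b ^ (m + 1)) {s N : ℕ → ℝ} (hN : ∀ n, 0 ≤ N n)
    (h1 : ∀ i j, s (i + j * (m + 1)) ≤ (((i + j * (m + 1) : ℕ) : ℝ) + 2) * d *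
      ((b : ℝ) ^ (i + 1) * ((b : ℝ) ^ (m + 1) - 2) ^ j))
    (h2 : ∀ n : ℕ, (b : ℝ) ^ (n + 1) ≤ b * (N n * ((n : ℝ) + 2) ^ K)) :
    ∃ C ρ : ℝ, 0 < ρ ∧ ρ < 1 ∧ ∀ n, s n ≤ C * ρ ^ n * N n := by
  have hb' : (2 : ℝ) ≤ (b : ℝ) ^ (m + 1) := by exact_mod_cast hb
  have hbm : (0 : ℝ) < (b : ℝ) ^ (m + 1) := by linarith
  set θ : ℝ := 1 - 2 / (b : ℝ) ^ (m + 1) with hθ
  have hθ1 : θ < 1 := by
    have : 0 < 2 / (b : ℝ) ^ (m + 1) := by positivity
    linarith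
  have hθ0 : 0 ≤ θ := by
    have : 2 / (b : ℝ) ^ (m + 1) ≤ 1 := (div_le_one hbm).2 hb'
    linarith
  have hθb : (b : ℝ) ^ (m + 1) - 2 = (b : ℝ) ^ (m + 1) * θ := by
    rw [hθ]
    field_simp
  set x : ℝ := (1 - θ) / (2 * (m + 1)) with hx
  have hm0 : (0 : ℝ) < 2 * ((m : ℝ) + 1) := by positivity
  have hx0 : 0 < x := div_pos (by linarith) hm0
  have hx1 : x ≤ 1 / 2 := by
    rw [hx, div_le_iff₀ hm0]
    have : (0 : ℝ) ≤ m := Nat.cast_nonneg m
    nlinarith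
  set ρ' : ℝ := 1 - x with hρ'
  have hρ0 : 0 < ρ' := by linarith
  have hρ1 : ρ' < 1 := by linarith
  have hθρ : θ ≤ ρ' ^ (m + 1) := by
    have h3 := one_add_mul_le_pow (a := -x) (by linarith) (m + 1)
    have h4 : (1 : ℝ) + ((m + 1 : ℕ) : ℝ) * -x = 1 - (1 - θ) / 2 := by
      rw [hx]
      push_cast
      field_simp
      ring
    rw [h4] at h3
    have h5 : (1 : ℝ) + -x = ρ' := by rw [hρ']; ring
    rw [h5] at h3
    linarith
  set ρ : ℝ := (1 + ρ') / 2 with hρ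
  have hρρ : ρ' < ρ := by linarith
  have hρ2 : ρ < 1 := by linarith
  have hρ3 : 0 < ρ := by linarith
  obtain ⟨C, hC0, hC⟩ := exists_bound (K + 1) (r := ρ' / ρ) (div_pos hρ0 hρ3) ((div_lt_one hρ3).2 hρρ)
  refine ⟨d * b * (ρ' ^ m)⁻¹ * C, ρ, hρ3, hρ2, fun n => ?_⟩
  set i := n % (m + 1) with hi
  set j := n / (m + 1) with hj
  have hn : i + j * (m + 1) = n := by
    rw [hi, hj, mul_comm]; exact Nat.mod_add_div n (m + 1)
  have him : i ≤ m := Nat.lt_succ_iff.1 (Nat.mod_lt _ (Nat.succ_pos m))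
  have h3 : s n ≤ ((n : ℝ) + 2) * d * ((b : ℝ) ^ (n + 1) * θ ^ j) := by
    have h4 := h1 i j
    rw [hn, hθb, mul_pow, ← mul_assoc ((b : ℝ) ^ (i + 1)), ← pow_mul, ← pow_add,
      show i + 1 + (m + 1) * j = n + 1 by rw [mul_comm]; omega] at h4
    exact h4
  have h4 : θ ^ j * ρ' ^ m ≤ ρ' ^ n := by
    calc θ ^ j * ρ' ^ m ≤ (ρ' ^ (m + 1)) ^ j * ρ' ^ m :=
          mul_le_mul_of_nonneg_right (pow_le_pow_left₀ hθ0 hθρ j) (by positivity)
      _ = ρ' ^ ((m + 1) * j + m) := by rw [← pow_mul, ← pow_add]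
      _ ≤ ρ' ^ n := pow_le_pow_of_le_one hρ0.le hρ1.le (by rw [mul_comm]; omega)
  have h5 : θ ^ j ≤ (ρ' ^ m)⁻¹ * ρ' ^ n := by
    rw [inv_mul_eq_div, le_div_iff₀ (by positivity)]
    exact h4
  have h6 : ((n : ℝ) + 2) ^ (K + 1) * ρ' ^ n ≤ C * ρ ^ n := by
    have h7 := hC n
    rw [div_pow, ← mul_div_assoc, div_le_iff₀ (by positivity)] at h7
    exact h7
  have hb0 : (0 : ℝ) ≤ b := Nat.cast_nonneg b
  have hNn := hN n
  calc s n ≤ ((n : ℝ) + 2) * d * ((b : ℝ) ^ (n + 1) * θ ^ j) := h3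
    _ ≤ ((n : ℝ) + 2) * d * ((b * (N n * ((n : ℝ) + 2) ^ K)) * θ ^ j) :=
        mul_le_mul_of_nonneg_left (mul_le_mul_of_nonneg_right (h2 n) (by positivity))
          (by positivity)
    _ ≤ ((n : ℝ) + 2) * d * ((b * (N n * ((n : ℝ) + 2) ^ K)) * ((ρ' ^ m)⁻¹ * ρ' ^ n)) :=
        mul_le_mul_of_nonneg_left (mul_le_mul_of_nonneg_left h5 (by positivity))
          (by positivity)
    _ = d * b * (ρ' ^ m)⁻¹ * N n * (((n : ℝ) + 2) ^ (K + 1) * ρ' ^ n) := by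
        rw [pow_succ ((n : ℝ) + 2) K]; ring
    _ ≤ d * b * (ρ' ^ m)⁻¹ * N n * (C * ρ ^ n) := mul_le_mul_of_nonneg_left h6 (by positivity)
    _ = d * b * (ρ' ^ m)⁻¹ * C * ρ ^ n * N n := by ring

variable {k : Type u} [Field k] {𝒱 : VarClass k} {ops : CycleOps 𝒱}
  {W : WeilCohomology.{u, v} ops} {X : 𝒱.Obj} {D : X.Cycles}

lemma exists_deg_one {f : Module.End W.K (W.H X)} (F : Fr W X D f) (h1 : PosOne W X D f) :
    ∃ l ∈ (algSys W).C X, W.tr X l = 1 := by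
  obtain ⟨p, hp, hp'⟩ := h1
  have hp0 : (p : W.K) ≠ 0 := by exact_mod_cast hp.ne'
  refine ⟨((p : W.K))⁻¹ • st W X D f 1, Submodule.smul_mem _ _
    (AS.mem_algSpan (F.st_AS AS.one)), ?_⟩
  rw [bf_apply, one_mul] at hp'
  rw [map_smul, hp', smul_eq_mul, inv_mul_cancel₀ hp0]

lemma exists_good (hD : X.IsCyc 1 D) (hHL : HardLefschetz W X D) (hB : LefschetzB W X D) :
    ∃ f, Gd W X D f ∧ Pz W X D f ∧ PrA W X := by
  obtain ⟨f, G⟩ := exists_gd hD hHL hB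
  exact ⟨f, G, ⟨G.fr, G.sy, G.ls⟩, proj_aop hD hHL hB⟩

/-- **The trichotomy.** -/
theorem trichotomy (hD : X.IsCyc 1 D)
    (hdeg : 0 < X.V.degCycle (divPow ops D X.dim X.V.fundCycle)) (hHL : HardLefschetz W X D)
    (hB : LefschetzB W X D) :
    (∀ n, HodgeType W (pw X n) (pwDiv ops D n) ∧
      totalSig W (pw X n) (pwDiv ops D n) = algDim W (pw X n)) ∨
    ((∀ n, totalSig W (pw X n) (pwDiv ops D n) = cycRank ops (pw X n)) ∧
      Tendsto (fun n => (cycRank ops (pw X n) : ℝ) / algDim W (pw X n)) atTop (𝓝 0)) ∨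
    ∃ C ρ : ℝ, 0 < ρ ∧ ρ < 1 ∧ ∀ n,
      (absSig W (pw X n) (pwDiv ops D n) : ℝ) ≤ C * ρ ^ n * cycRank ops (pw X n) := by
  obtain ⟨f, G, F, hX⟩ := exists_good hD hHL hB
  have h1 := posOne F.fr hdeg
  by_cases h : ∀ n, Semi W (pw X n) (pwDiv ops D n)
  · have hS : ∀ n, totalSig W (pw X n) (pwDiv ops D n) = cycRank ops (pw X n) := by
      intro n
      obtain ⟨g, F', -⟩ := exists_pz_pw F h1 n
      exact totalSig_eq F' (h n)
    rcases d_law W X with hd | hd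
    · left
      intro n
      obtain ⟨g, F', -⟩ := exists_pz_pw F h1 n
      refine ⟨hodgeType_of F' (h n) (hd n), ?_⟩
      rw [hS n, algDim_eq]
      exact_mod_cast (homEqNum_iff' _).1 (hd n)
    · exact Or.inr (Or.inl ⟨hS, hd⟩)
  · right
    right
    have hex : ∃ m n, 2 * n ≤ (pw X m).dim ∧ ∃ z, Primitive W (pw X m) (pwDiv ops D m) n z ∧
        pairing ops (pw X m) (pwDiv ops D m) n z z < 0 := by
      by_contra hno
      push Not at hno
      exact h fun m n hn z hz => hno m n hn z hz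
    obtain ⟨m, n₀, hn₀, z, hz, hneg⟩ := hex
    obtain ⟨l, hl, hl1⟩ := exists_deg_one F.fr h1
    have hb2 : 2 ≤ finrank W.K (W.H X) ^ (m + 1) := by
      obtain ⟨g, F', h1'⟩ := exists_pz_pw F h1 m
      obtain ⟨x, y, p, q, hp, hx, hy⟩ := exists_hp F'.fr h1' hn₀ hz hneg
      obtain ⟨e₀, J₀, c₀, R⟩ := hp.rev F'.fr F'.sy hx hy
      have := R.rank
      rw [finrank_pw] at this
      omega
    refine decay (b := finrank W.K (W.H X)) (m := m) (K := finrank W.K (W.H X) ^ 2)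
      (d := X.dim + 1) hb2 (fun n => Nat.cast_nonneg _) (fun i j => ?_) (fun n => ?_)
    · have h2 := pw_bound F hX h1 hn₀ hz hneg i j
      set n := i + j * (m + 1) with hn
      set B : ℕ := finrank W.K (W.H X) ^ (i + 1) *
          (finrank W.K (W.H X) ^ (m + 1) - 2) ^ j with hBdef
      have h3 : (B : ℝ) = (finrank W.K (W.H X) : ℝ) ^ (i + 1) *
            ((finrank W.K (W.H X) : ℝ) ^ (m + 1) - 2) ^ j := by
        rw [hBdef]
        push_cast [Nat.cast_sub hb2]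
        ring
      rw [← h3]
      have h4 : (absSig W (pw X n) (pwDiv ops D n) : ℝ) ≤ (((pw X n).dim : ℝ) + 2) * B := by
        exact_mod_cast h2
      refine h4.trans (mul_le_mul_of_nonneg_right ?_ (Nat.cast_nonneg _))
      rw [dim_pw]
      push_cast
      have hd0 : (0 : ℝ) ≤ X.dim := Nat.cast_nonneg _
      have hn0 : (0 : ℝ) ≤ n := Nat.cast_nonneg _
      nlinarith
    · have h2 := low_pw (algSys W) (AOp.mem_Op G.pa) hl hl1 n
      rw [numDim_eq_cycRank] at h2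
      exact_mod_cast h2

end Pool.Agent.Q55.Hs
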