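import Pool.Agent.Q55.Hs.Sgn

/-!
# Maximal orthogonal families and the radical
-/

open Finset

namespace Pool.Agent.Q55.Hs

open Pool.Agent.W539.Ker

variable {M : Type*} [AddCommGroup M] [Module ℚ M] {B : M →ₗ[ℚ] M →ₗ[ℚ] ℚ}
  {ι : Type*} [Fintype ι] {x : ι → M}

/-- Projection to the orthogonal complement of an orthogonal family. -/
noncomputable def res (B : M →ₗ[ℚ] M →ₗ[ℚ] ℚ) (x : ι → M) (y : M) : M :=
  y - ∑ i, (B y (x i) / B (x i) (x i)) • x i

lemma res_orth (hx : OM B x) (y : M) (i : ι) : B (res B x y) (x i) = 0 := by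
  classical
  rw [res, map_sub, LinearMap.sub_apply, map_sum B, LinearMap.sum_apply, Finset.sum_eq_single i]
  · rw [map_smul, LinearMap.smul_apply, smul_eq_mul, div_mul_cancel₀ _ (hx.ne i), sub_self]
  · intro j _ hj
    rw [map_smul, LinearMap.smul_apply, hx.orth j i hj, smul_zero]
  · intro h0; exact absurd (Finset.mem_univ _) h0

/-- The orthogonal complement of a maximal orthogonal family is the radical. -/
lemma om_rad (hB : ∀ x y, B x y = B y x) (hx : OM B x) {u : M} (hu : ∀ i, B u (x i) = 0)
    (y : M) : B u y = 0 := by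
  set y' := res B x y with hy'
  have h1 : ∀ i, B y' (x i) = 0 := res_orth hx y
  have h2 : B u y = B u y' := by
    rw [hy', res, map_sub, map_sum]
    simp only [map_smul, hu, smul_zero, Finset.sum_const_zero, sub_zero]
  have h3 := hx.max u hu
  have h4 := hx.max y' h1
  have h5 := hx.max (u + y') (fun i => by rw [map_add, LinearMap.add_apply, hu, h1, add_zero])
  rw [map_add, map_add, LinearMap.add_apply, LinearMap.add_apply, h3, h4, hB y' u] at h5
  rw [h2]
  linarith

/-- The signature of a nonnegative form is the number of vectors in a maximal orthogonal family. -/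
lemma sgn_nonneg (hB : ∀ x y, B x y = B y x) (hx : OM B x) (h : ∀ u, 0 ≤ B u u) :
    sgn B = Fintype.card ι := by
  have h1 : sgn B = ∑ i, ((SignType.sign (B (x i) (x i)) : SignType) : ℤ) := hx.signature_eq hB
  rw [h1]
  have h2 : ∀ i ∈ (univ : Finset ι),
      ((SignType.sign (B (x i) (x i)) : SignType) : ℤ) = 1 := by
    intro i _
    rw [sign_pos (lt_of_le_of_ne (h _) (hx.ne i).symm)]
    rfl
  rw [Finset.sum_congr rfl h2, Finset.sum_const, Finset.card_univ, nsmul_eq_mul, mul_one]

lemma abs_sgn_le_card (hB : ∀ x y, B x y = B y x) (hx : OM B x) :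
    |sgn B| ≤ Fintype.card ι := by
  have h1 : sgn B = ∑ i, ((SignType.sign (B (x i) (x i)) : SignType) : ℤ) := hx.signature_eq hB
  rw [h1]
  refine (Finset.abs_sum_le_sum_abs _ _).trans ?_
  have h2 : ∀ i ∈ (univ : Finset ι),
      |((SignType.sign (B (x i) (x i)) : SignType) : ℤ)| ≤ 1 := by
    intro i _
    rcases lt_trichotomy (B (x i) (x i)) 0 with h0 | h0 | h0
    · rw [sign_neg h0]; simp
    · rw [h0]; simp
    · rw [sign_pos h0]; simp
  refine (Finset.sum_le_sum h2).trans ?_
  rw [Finset.sum_const, Finset.card_univ, nsmul_eq_mul, mul_one]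

end Pool.Agent.Q55.Hs
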