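import Pool.Agent.Q55.Hs.Form

/-!
# The idempotent of a pair of classes with squares of opposite signs
-/

open CategoryTheory AlgebraicGeometry Finset

universe u v

namespace Pool.Agent.Q55.Hs

open Pool.Agent.H914 Pool.Agent.H914.VarClass Pool.Agent.H914.VarClass.Obj
  Pool.Agent.H914.WeilCohomology Pool.Agent.H281R3.HT Pool.Agent.W552 Pool.Agent.W539.Ker

variable {k : Type u} [Field k] {𝒱 : VarClass k} {ops : CycleOps 𝒱}
  {W : WeilCohomology.{u, v} ops} {X Y : 𝒱.Obj} {D : X.Cycles} {f : Module.End W.K (W.H X)}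

/-- The operator `x ↦ bf x y • z`. -/
noncomputable def R1 (W : WeilCohomology.{u, v} ops) (X : 𝒱.Obj) (D : X.Cycles)
    (f : Module.End W.K (W.H X)) (y z : W.H X) : Module.End W.K (W.H X) :=
  ((bf W X D f).flip y).smulRight z

lemma R1_apply (y z x : W.H X) : R1 W X D f y z x = bf W X D f x y • z := rfl

lemma R1_aop (F : Fr W X D f) {y z : W.H X} (hy : AS W X y) (hz : AS W X z) :
    AOp W X X (R1 W X D f y z) := by
  refine ⟨Pool.Agent.H281R3.HT.ext W (st W X D f y) z, (F.st_AS hy).ext hz, ?_⟩
  apply LinearMap.ext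
  intro x
  rw [corr_apply, Pool.Agent.H281R3.HT.ext, mul_assoc, (hz.map (snd X X)).comm, ← mul_assoc,
    ← map_mul, (F.st_AS hy).comm, push_snd, R1_apply, bf_apply]

lemma R1_mul (y z y' z' : W.H X) :
    R1 W X D f y z * R1 W X D f y' z' = bf W X D f z' y • R1 W X D f y' z := by
  apply LinearMap.ext
  intro x
  rw [Module.End.mul_apply, R1_apply, R1_apply, LinearMap.smul_apply, R1_apply, map_smul,
    LinearMap.smul_apply, smul_eq_mul, smul_smul, mul_comm]

lemma R1_adj (S : Sy W X D f) {y z : W.H X} (hz : AS W X z) (a b : W.H X) :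
    bf W X D f (R1 W X D f y z a) b = bf W X D f a (R1 W X D f z y b) := by
  have h1 : ∀ c, bf W X D f z c = bf W X D f c z := by
    intro c
    rw [S c z, par_AS hz]
  rw [R1_apply, R1_apply, map_smul, LinearMap.smul_apply, map_smul, smul_eq_mul, smul_eq_mul, h1,
    mul_comm]

lemma bf_proj (F : Fr W X D f) (i : ℕ) (x y : W.H X) :
    bf W X D f (proj (W.isInternal X) i x) y = bf W X D f x (proj (W.isInternal X) i y) := by
  refine gr_induction (W.isInternal X) (p := fun x => bf W X D f (proj (W.isInternal X) i x) y =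
    bf W X D f x (proj (W.isInternal X) i y)) ?_ ?_ x
  swap
  · intro a b ha hb
    rw [map_add, map_add, LinearMap.add_apply, ha, hb, map_add, LinearMap.add_apply]
  intro j x hx
  refine gr_induction (W.isInternal X) (p := fun y => bf W X D f (proj (W.isInternal X) i x) y =
    bf W X D f x (proj (W.isInternal X) i y)) ?_ ?_ y
  swap
  · intro a b ha hb
    rw [map_add, ha, hb, map_add, map_add]
  intro l y hy
  by_cases hji : j = i
  · subst hji
    rw [proj_same _ hx]
    by_cases hlj : l = j
    · subst hlj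
      rw [proj_same _ hy]
    · rw [proj_ne _ hy hlj, map_zero, F.bf_deg hx hy (Ne.symm hlj)]
  · rw [proj_ne _ hx hji, map_zero, LinearMap.zero_apply]
    by_cases hli : l = i
    · subst hli
      rw [proj_same _ hy, F.bf_deg hx hy hji]
    · rw [proj_ne _ hy hli, map_zero]

/-- The operator preserves the degrees. -/
def Dg (W : WeilCohomology.{u, v} ops) (X : 𝒱.Obj) (u : Module.End W.K (W.H X)) : Prop :=
  ∀ i, Commute (proj (W.isInternal X) i) u

lemma R1_dg (F : Fr W X D f) {r : ℕ} {y z : W.H X} (hy : y ∈ W.gr X r) (hz : z ∈ W.gr X r) :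
    Dg W X (R1 W X D f y z) := by
  intro i
  apply LinearMap.ext
  intro x
  rw [Module.End.mul_apply, Module.End.mul_apply, R1_apply, R1_apply, map_smul, bf_proj F]
  by_cases hir : r = i
  · subst hir
    rw [proj_same _ hz, proj_same _ hy]
  · rw [proj_ne _ hz hir, proj_ne _ hy hir, map_zero, zero_smul, smul_zero]

lemma Dg.add {u u' : Module.End W.K (W.H X)} (h : Dg W X u) (h' : Dg W X u') :
    Dg W X (u + u') := fun i => (h i).add_right (h' i)

lemma Dg.smul (c : W.K) {u : Module.End W.K (W.H X)} (h : Dg W X u) : Dg W X (c • u) :=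
  fun i => (h i).smul_right c

/-- Two orthogonal sums of algebraic classes with squares of opposite signs. -/
structure HP (W : WeilCohomology.{u, v} ops) (X : 𝒱.Obj) (D : X.Cycles)
    (f : Module.End W.K (W.H X)) (x y : W.H X) (p q : ℚ) : Prop where
  hx : AS W X x
  hy : AS W X y
  hp : 0 < p
  hq : 0 < q
  xx : bf W X D f x x = (p : W.K)
  yy : bf W X D f y y = -(q : W.K)
  xy : bf W X D f x y = 0

/-- An idempotent and an operator which reverses the signs. -/
structure Rev (W : WeilCohomology.{u, v} ops) (X : 𝒱.Obj) (D : X.Cycles)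
    (f e J : Module.End W.K (W.H X)) (c : ℚ) : Prop where
  ea : AOp W X X e
  es : SA W X D f e
  ee : e * e = e
  ja : AOp W X X J
  js : SA W X D f J
  hc : 0 < c
  jj : J * J = ((-c : ℚ) : W.K) • e
  de : Dg W X e
  dj : Dg W X J
  rank : Module.finrank W.K (LinearMap.range (1 - e)) + 2 ≤ Module.finrank W.K (W.H X)

theorem HP.rev (F : Fr W X D f) (S : Sy W X D f) {x y : W.H X} {p q : ℚ}
    (h : HP W X D f x y p q) {r : ℕ} (hxr : x ∈ W.gr X r) (hyr : y ∈ W.gr X r) :
    ∃ e J c, Rev W X D f e J c := by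
  have hp0 : (p : W.K) ≠ 0 := by exact_mod_cast h.hp.ne'
  have hq0 : (q : W.K) ≠ 0 := by exact_mod_cast h.hq.ne'
  have yx : bf W X D f y x = 0 := by rw [bf_symm_AS S h.hx, h.xy]
  set a := R1 W X D f x x with ha
  set b := R1 W X D f y y with hb
  set s := R1 W X D f x y with hs
  set t := R1 W X D f y x with ht
  have aa : a * a = (p : W.K) • a := by rw [ha, R1_mul, h.xx]
  have bb : b * b = -(q : W.K) • b := by rw [hb, R1_mul, h.yy]
  have ab : a * b = 0 := by rw [ha, hb, R1_mul, yx, zero_smul]
  have ba : b * a = 0 := by rw [ha, hb, R1_mul, h.xy, zero_smul]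
  have ss : s * s = 0 := by rw [hs, R1_mul, yx, zero_smul]
  have tt : t * t = 0 := by rw [ht, R1_mul, h.xy, zero_smul]
  have st' : s * t = (p : W.K) • b := by rw [hs, ht, hb, R1_mul, h.xx]
  have ts : t * s = -(q : W.K) • a := by rw [hs, ht, ha, R1_mul, h.yy]
  have haa := R1_aop F h.hx h.hx
  have hba := R1_aop F h.hy h.hy
  have hsa := R1_aop F h.hx h.hy
  have hta := R1_aop F h.hy h.hx
  refine ⟨((p⁻¹ : ℚ) : W.K) • a + ((-q⁻¹ : ℚ) : W.K) • b, s + t, p * q, ?_⟩
  refine ⟨(haa.smul _).add (hba.smul _), ?_, ?_, hsa.add hta, ?_, mul_pos h.hp h.hq, ?_,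
    ((R1_dg F hxr hxr).smul _).add ((R1_dg F hyr hyr).smul _),
    (R1_dg F hxr hyr).add (R1_dg F hyr hxr), ?_⟩
  · intro u w
    rw [LinearMap.add_apply, LinearMap.smul_apply, LinearMap.smul_apply, map_add, map_smul,
      map_smul, LinearMap.add_apply, LinearMap.smul_apply, LinearMap.smul_apply, ha, hb,
      R1_adj S h.hx, R1_adj S h.hy, LinearMap.add_apply, LinearMap.smul_apply,
      LinearMap.smul_apply, map_add, map_smul, map_smul]
  · rw [mul_add, add_mul, add_mul]
    simp only [smul_mul_assoc, mul_smul_comm, aa, bb, ab, ba, smul_zero, add_zero, zero_add,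
      smul_smul]
    push_cast
    congr 1
    · congr 1
      field_simp
    · congr 1
      field_simp
  · intro u w
    rw [LinearMap.add_apply, map_add, LinearMap.add_apply, hs, ht, R1_adj S h.hy,
      R1_adj S h.hx, LinearMap.add_apply, map_add, add_comm]
  · rw [mul_add, add_mul, add_mul, ss, tt, st', ts, smul_add, smul_smul, smul_smul]
    push_cast
    rw [zero_add, add_zero]
    congr 1
    · congr 1
      field_simp
    · congr 1
      field_simp
  · -- the rank
    set e : Module.End W.K (W.H X) := ((p⁻¹ : ℚ) : W.K) • a + ((-q⁻¹ : ℚ) : W.K) • b with he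
    have hex : e x = x := by
      rw [he, LinearMap.add_apply, LinearMap.smul_apply, LinearMap.smul_apply, ha, hb, R1_apply,
        R1_apply, h.xx, h.xy, zero_smul, smul_zero, add_zero, smul_smul]
      push_cast
      rw [inv_mul_cancel₀ hp0, one_smul]
    have hey : e y = y := by
      rw [he, LinearMap.add_apply, LinearMap.smul_apply, LinearMap.smul_apply, ha, hb, R1_apply,
        R1_apply, h.yy, yx, zero_smul, smul_zero, zero_add, smul_smul]
      push_cast
      rw [neg_mul_neg, inv_mul_cancel₀ hq0, one_smul]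
    have h1 := LinearMap.finrank_range_add_finrank_ker (1 - e)
    have hli : LinearIndependent W.K ![(⟨x, by
        rw [LinearMap.mem_ker, LinearMap.sub_apply, Module.End.one_apply, hex, sub_self]⟩ :
        LinearMap.ker (1 - e)), ⟨y, by
        rw [LinearMap.mem_ker, LinearMap.sub_apply, Module.End.one_apply, hey, sub_self]⟩] := by
      rw [LinearIndependent.pair_iff]
      intro r l hrl
      have h2 : r • x + l • y = 0 := congrArg Subtype.val hrl
      have h3 := congrArg (fun z => bf W X D f z x) h2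
      have h4 := congrArg (fun z => bf W X D f z y) h2
      simp only [map_add, map_smul, LinearMap.add_apply, LinearMap.smul_apply, h.xx, yx, h.xy,
        h.yy, smul_eq_mul, mul_zero, add_zero, zero_add, map_zero, LinearMap.zero_apply,
        mul_neg, neg_eq_zero] at h3 h4
      exact ⟨(mul_eq_zero.1 h3).resolve_right hp0, (mul_eq_zero.1 h4).resolve_right hq0⟩
    have h2 := hli.fintype_card_le_finrank
    rw [Fintype.card_fin] at h2
    omega

end Pool.Agent.Q55.Hs
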