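import Pool.Agent.Q55.Hs.Nest
import Pool.Agent.Q55.Hs.Om
import Pool.Agent.Q55.Hs.Defs

/-!
# The signature of the form on all algebraic classes
-/

open CategoryTheory AlgebraicGeometry Finset

universe u v

namespace Pool.Agent.Q55.Hs

open Pool.Agent.H914 Pool.Agent.H914.VarClass Pool.Agent.H914.VarClass.Obj
  Pool.Agent.H914.WeilCohomology Pool.Agent.H281R3.HT Pool.Agent.W552 Pool.Agent.W539.Ker

variable {k : Type u} [Field k] {𝒱 : VarClass k} {ops : CycleOps 𝒱}
  {W : WeilCohomology.{u, v} ops} {X : 𝒱.Obj} {D : X.Cycles} {f : Module.End W.K (W.H X)}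

lemma card_filter_range {d n : ℕ} (hn : 2 * n ≤ d) :
    ((range (d + 1)).filter (fun j => n ≤ j ∧ j ≤ d - n)).card = d - 2 * n + 1 := by
  have h : (range (d + 1)).filter (fun j => n ≤ j ∧ j ≤ d - n) = Icc n (d - n) := by
    ext j
    rw [Finset.mem_filter, Finset.mem_range, Finset.mem_Icc]
    omega
  rw [h, Nat.card_Icc]
  omega

lemma sum_wsum (d : ℕ) (σ : ℕ → ℤ) : ∑ j ∈ range (d + 1), wsum d σ (2 * (j : ℤ) - d) =
    ∑ n ∈ range (d / 2 + 1), ((d : ℤ) - 2 * n + 1) * σ n := by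
  simp only [wsum]
  rw [Finset.sum_comm]
  apply Finset.sum_congr rfl
  intro n hn
  rw [Finset.mem_range] at hn
  rw [← Finset.sum_filter, Finset.sum_const]
  have h : (range (d + 1)).filter (fun j : ℕ => |2 * (j : ℤ) - d| ≤ (d : ℤ) - 2 * n ∧
      (2 : ℤ) ∣ d + (2 * (j : ℤ) - d)) = (range (d + 1)).filter (fun j => n ≤ j ∧ j ≤ d - n) := by
    apply Finset.filter_congr
    intro j hj
    rw [Finset.mem_range] at hj
    rw [abs_le]
    omega
  rw [h, card_filter_range (by omega), nsmul_eq_mul]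
  congr 1
  omega

/-- There is a maximal orthogonal family for the form, with sum of signs the total signature. -/
theorem exists_om (F : Fr W X D f) : ∃ (ι : Type) (_ : Fintype ι) (x : ι → AG W X),
    OM (BF F) x ∧ ∑ i, ((SignType.sign (BF F (x i) (x i)) : SignType) : ℤ) = totalSig W X D := by
  classical
  choose ι hι y s h1 h2 h3 h4 h5 h6 h7 using fun j : Fin (X.dim + 1) =>
    exists_fam F (2 * ((j : ℕ) : ℤ) - X.dim)
  have hgr : ∀ (j : Fin (X.dim + 1)) (i : ι j), y j i ∈ W.gr X (2 * (j : ℕ)) := by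
    intro j i
    refine (mem_gr_of_wt (W.isInternal X) W_hbd (h2 j i)).1 _ ?_
    push_cast
    ring
  have hs : ∀ p : Σ j, ι j, BF F ⟨y p.1 p.2, h1 p.1 p.2⟩ ⟨y p.1 p.2, h1 p.1 p.2⟩ =
      s p.1 p.2 := by
    intro p
    have : ((BF F ⟨y p.1 p.2, h1 p.1 p.2⟩ ⟨y p.1 p.2, h1 p.1 p.2⟩ : ℚ) : W.K) =
        ((s p.1 p.2 : ℚ) : W.K) := by
      rw [BF_cast]; exact h4 p.1 p.2
    exact_mod_cast this
  refine ⟨Σ j, ι j, inferInstance, fun p => ⟨y p.1 p.2, h1 p.1 p.2⟩, ⟨?_, ?_, ?_⟩, ?_⟩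
  · intro p
    rw [hs]; exact h3 p.1 p.2
  · rintro ⟨j, i⟩ ⟨j', i'⟩ hne
    have : ((BF F ⟨y j i, h1 j i⟩ ⟨y j' i', h1 j' i'⟩ : ℚ) : W.K) = ((0 : ℚ) : W.K) := by
      rw [BF_cast, Rat.cast_zero]
      by_cases hj : j = j'
      · subst hj
        exact h5 j i i' (fun h => hne (by rw [h]))
      · exact F.bf_deg (hgr j i) (hgr j' i') (by
          intro h
          exact hj (Fin.ext (by omega)))
    exact_mod_cast this
  · intro w hw
    have hw' : ∀ j : Fin (X.dim + 1), ∀ i, bf W X D f (w : W.H X) (y j i) = 0 := by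
      intro j i
      have := hw ⟨j, i⟩
      have h8 : ((BF F w ⟨y j i, h1 j i⟩ : ℚ) : W.K) = 0 := by rw [this, Rat.cast_zero]
      rw [BF_cast] at h8
      exact h8
    have hsum : (w : W.H X) = ∑ j ∈ range (X.dim + 1), proj (W.isInternal X) (2 * j) (w : W.H X) :=
      Fr.AS_sum w.2
    have hp : ∀ j ∈ range (X.dim + 1), bf W X D f (proj (W.isInternal X) (2 * j) (w : W.H X))
        (proj (W.isInternal X) (2 * j) (w : W.H X)) = 0 := by
      intro j hj
      rw [Finset.mem_range] at hj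
      have hmem := proj_mem (W.isInternal X) (2 * j) (w : W.H X)
      refine h6 ⟨j, hj⟩ _ (AS.of (AS.proj w.2 j)) ?_ ?_
      · rw [Fr.wt_gr hmem]
        congr 1
        push_cast
        ring
      · intro i
        have h9 := hw' ⟨j, hj⟩ i
        rw [hsum, map_sum (bf W X D f), LinearMap.sum_apply, Finset.sum_eq_single j] at h9
        · exact h9
        · intro l _ hl
          exact F.bf_deg (proj_mem _ _ _) (hgr ⟨j, hj⟩ i) (by
            change 2 * l ≠ 2 * j
            omega)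
        · intro h0; exact absurd (Finset.mem_range.2 hj) h0
    have : ((BF F w w : ℚ) : W.K) = ((0 : ℚ) : W.K) := by
      rw [BF_cast, Rat.cast_zero]
      rw [hsum, map_sum (bf W X D f), LinearMap.sum_apply]
      apply Finset.sum_eq_zero
      intro j hj
      rw [map_sum, Finset.sum_eq_single j, hp j hj]
      · intro l _ hl
        exact F.bf_deg (proj_mem _ _ _) (proj_mem _ _ _) (by omega)
      · intro h0; exact absurd hj h0
    exact_mod_cast this
  · rw [Fintype.sum_sigma]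
    have h8 : ∀ j : Fin (X.dim + 1), ∑ i, ((SignType.sign (BF F ⟨y j i, h1 j i⟩
        ⟨y j i, h1 j i⟩) : SignType) : ℤ) = wsum X.dim (sig W X D) (2 * ((j : ℕ) : ℤ) - X.dim) := by
      intro j
      rw [← h7 j]
      apply Finset.sum_congr rfl
      intro i _
      rw [hs ⟨j, i⟩]
    rw [Finset.sum_congr rfl (fun j _ => h8 j), totalSig, ← sum_wsum, Finset.sum_range]

/-- **The total signature is the signature of the form.** -/
theorem sgn_eq_totalSig (F : Fr W X D f) (S : Sy W X D f) : sgn (BF F) = totalSig W X D := by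
  obtain ⟨ι, _, x, hx, hs⟩ := exists_om F
  rw [← hs]
  exact hx.signature_eq (BF_symm F S)

/-- The signature in a given degree. -/
theorem sg_proj (F : Fr W X D f) {j : ℕ} (S : Sy W X D f)
    (h : AOp W X X (proj (W.isInternal X) (2 * j))) :
    sg' F h = wsum X.dim (sig W X D) (2 * (j : ℤ) - X.dim) := by
  obtain ⟨ι, hι, y, s, h1, h2, h3, h4, h5, h6, h7⟩ := exists_fam F (2 * (j : ℤ) - X.dim)
  have hgr : ∀ i, y i ∈ W.gr X (2 * j) := by
    intro i
    refine (mem_gr_of_wt (W.isInternal X) W_hbd (h2 i)).1 _ ?_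
    push_cast
    ring
  have hpy : ∀ i, proj (W.isInternal X) (2 * j) (y i) = y i := fun i => proj_same _ (hgr i)
  have hs : ∀ i, (BF F ∘ₗ rs h) ⟨y i, h1 i⟩ ⟨y i, h1 i⟩ = s i := by
    intro i
    have : (((BF F ∘ₗ rs h) ⟨y i, h1 i⟩ ⟨y i, h1 i⟩ : ℚ) : W.K) = ((s i : ℚ) : W.K) := by
      rw [LinearMap.comp_apply, BF_cast, coe_rs, hpy]; exact h4 i
    exact_mod_cast this
  have hom : OM (BF F ∘ₗ rs h) (fun i => (⟨y i, h1 i⟩ : AG W X)) := by
    refine ⟨fun i => by rw [hs]; exact h3 i, fun i i' hne => ?_, fun w hw => ?_⟩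
    · have : (((BF F ∘ₗ rs h) ⟨y i, h1 i⟩ ⟨y i', h1 i'⟩ : ℚ) : W.K) = ((0 : ℚ) : W.K) := by
        rw [LinearMap.comp_apply, BF_cast, coe_rs, hpy, Rat.cast_zero]
        exact h5 i i' hne
      exact_mod_cast this
    · have hpp : proj (W.isInternal X) (2 * j) (proj (W.isInternal X) (2 * j) (w : W.H X)) =
          proj (W.isInternal X) (2 * j) (w : W.H X) := proj_same _ (proj_mem _ _ _)
      have h8 := h6 (proj (W.isInternal X) (2 * j) (w : W.H X)) (AS.of (AS.proj w.2 j)) (by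
        rw [Fr.wt_gr (proj_mem (W.isInternal X) (2 * j) (w : W.H X))]
        congr 1
        push_cast
        ring) (fun i => by
        have h9 := hw i
        have h10 : (((BF F ∘ₗ rs h) w ⟨y i, h1 i⟩ : ℚ) : W.K) = 0 := by rw [h9, Rat.cast_zero]
        rw [LinearMap.comp_apply, BF_cast, coe_rs] at h10
        exact h10)
      have : (((BF F ∘ₗ rs h) w w : ℚ) : W.K) = ((0 : ℚ) : W.K) := by
        rw [LinearMap.comp_apply, BF_cast, coe_rs, Rat.cast_zero, ← hpp, bf_proj F]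
        exact h8
      exact_mod_cast this
  rw [← h7]
  have key := hom.signature_eq (comp_symm F S h (SA.proj F _))
  have key' : sg' F h = ∑ i, ((SignType.sign ((BF F ∘ₗ rs h) ⟨y i, h1 i⟩ ⟨y i, h1 i⟩) : SignType) :
      ℤ) := key
  rw [key']
  apply Finset.sum_congr rfl
  intro i _
  rw [hs]

lemma wsum_low {d n : ℕ} (hn : 2 * n ≤ d) (σ : ℕ → ℤ) :
    wsum d σ (2 * (n : ℤ) - d) = ∑ i ∈ range (n + 1), σ i := by
  rw [wsum, ← Finset.sum_filter]
  apply Finset.sum_congr ?_ (fun _ _ => rfl)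
  ext i
  rw [Finset.mem_filter, Finset.mem_range, Finset.mem_range, abs_le]
  omega

lemma abs_sig_le {d : ℕ} {σ : ℕ → ℤ} {N : ℤ}
    (h : ∀ j : ℕ, j ≤ d → |wsum d σ (2 * (j : ℤ) - d)| ≤ N) {n : ℕ} (hn : 2 * n ≤ d) :
    |σ n| ≤ 2 * N := by
  have h0 : 0 ≤ N := (abs_nonneg _).trans (h 0 (Nat.zero_le _))
  rcases Nat.eq_zero_or_pos n with h1 | h1
  · subst h1
    have h2 := h 0 (Nat.zero_le _)
    rw [wsum_low (by omega), zero_add, Finset.sum_range_one] at h2
    linarith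
  · obtain ⟨m, rfl⟩ : ∃ m, n = m + 1 := ⟨n - 1, by omega⟩
    have h2 := h (m + 1) (by omega)
    have h3 := h m (by omega)
    rw [wsum_low hn, Finset.sum_range_succ] at h2
    rw [wsum_low (by omega)] at h3
    rw [abs_le] at h2 h3 ⊢
    constructor <;> linarith [h2.1, h2.2, h3.1, h3.2]

lemma sum_abs_le {d : ℕ} {σ : ℕ → ℤ} {N : ℤ}
    (h : ∀ j : ℕ, j ≤ d → |wsum d σ (2 * (j : ℤ) - d)| ≤ N) :
    ∑ n ∈ range (d / 2 + 1), |σ n| ≤ ((d : ℤ) + 2) * N := by
  have h0 : 0 ≤ N := (abs_nonneg _).trans (h 0 (Nat.zero_le _))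
  calc ∑ n ∈ range (d / 2 + 1), |σ n| ≤ ∑ n ∈ range (d / 2 + 1), 2 * N := by
        apply Finset.sum_le_sum
        intro n hn
        rw [Finset.mem_range] at hn
        exact abs_sig_le h (by omega)
    _ = ((d / 2 + 1 : ℕ) : ℤ) * (2 * N) := by rw [Finset.sum_const, card_range, nsmul_eq_mul]
    _ ≤ ((d : ℤ) + 2) * N := by
        have : 2 * ((d / 2 + 1 : ℕ) : ℤ) ≤ (d : ℤ) + 2 := by omega
        nlinarith

end Pool.Agent.Q55.Hs
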